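import Pool.Agent.N802.WD.Msd
import Pool.Agent.N802.WD.Right
import Pool.Agent.N802.U.Fm

/-! # Dirichlet polynomials on vertical lines: products, twists, Gaussian masses -/

set_option autoImplicit false

open Complex Filter Topology Set MeasureTheory
open scoped BigOperators ComplexConjugate

namespace Run7.h311.DM

open TC (om om_pos om_cont om_integrable)
open Pool.Agent.N802 Pool.Agent.N802.U Pool.Agent.N802.WD Pool.Agent.N802.WD.Msd
open Pool.Agent.R399.TW (pt pt_re pt_im pt_cont)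

/-- the coefficients `r(n) n ^ (-u)` -/
noncomputable def ru (r : ℕ → ℂ) (u : ℝ) (n : ℕ) : ℂ :=
  r n * ((Real.exp (-(u * Real.log n)) : ℝ) : ℂ)

/-- the Dirichlet polynomial as an entire function -/
noncomputable def Rc (S : Finset ℕ) (r : ℕ → ℂ) (z : ℂ) : ℂ :=
  ∑ n ∈ S, r n * cexp (-((z - 1 / 2) * Real.log n))

lemma ru_zero (r : ℕ → ℂ) : ru r 0 = r := by
  funext n
  unfold ru
  simp

lemma Rc_pt (S : Finset ℕ) (r : ℕ → ℂ) (u t : ℝ) : Rc S r (pt (1 / 2 + u) t) = RP S (ru r u) t := by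
  unfold Rc RP TP ru mn
  refine Finset.sum_congr rfl fun n _ => ?_
  rw [mul_assoc]
  congr 1
  rw [Complex.ofReal_exp, ← Complex.exp_add]
  congr 1
  unfold pt
  rw [Nat.cast_one, Real.log_one]
  push_cast
  ring

lemma Rc_half (S : Finset ℕ) (r : ℕ → ℂ) (t : ℝ) : Rc S r (pt (1 / 2) t) = RP S r t := by
  have h1 := Rc_pt S r 0 t
  rw [ru_zero, add_zero] at h1
  exact h1

lemma Rc_diff (S : Finset ℕ) (r : ℕ → ℂ) : Differentiable ℂ (Rc S r) := by
  unfold Rc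
  fun_prop

lemma Rc_one (z : ℂ) : Rc {1} (fun _ => 1) z = 1 := by
  unfold Rc
  simp

lemma Rc_mul (P S : Finset ℕ) (c r : ℕ → ℂ) (hP : ∀ k ∈ P, 0 < k) (hS : ∀ k ∈ S, 0 < k)
    (Q : Finset ℕ) (hQ : ∀ m ∈ P, ∀ n ∈ S, m * n ∈ Q) (z : ℂ) :
    Rc P c z * Rc S r z = Rc Q (cv P S c r) z := by
  unfold Rc cv
  have h := Finset.sum_fiberwise_of_maps_to (s := P ×ˢ S) (t := Q) (g := fun z => z.1 * z.2)
    (fun z hz => hQ _ (Finset.mem_product.1 hz).1 _ (Finset.mem_product.1 hz).2)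
    (fun x => c x.1 * r x.2 * cexp (-((z - 1 / 2) * Real.log ((x.1 * x.2 : ℕ) : ℝ))))
  rw [Finset.sum_mul_sum, ← Finset.sum_product']
  have e : ∑ x ∈ P ×ˢ S, c x.1 * cexp (-((z - 1 / 2) * Real.log x.1)) *
      (r x.2 * cexp (-((z - 1 / 2) * Real.log x.2))) =
      ∑ x ∈ P ×ˢ S, c x.1 * r x.2 * cexp (-((z - 1 / 2) * Real.log ((x.1 * x.2 : ℕ) : ℝ))) := by
    refine Finset.sum_congr rfl fun x hx => ?_
    rw [Finset.mem_product] at hx
    have h1 : (0 : ℝ) < x.1 := by exact_mod_cast hP _ hx.1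
    have h2 : (0 : ℝ) < x.2 := by exact_mod_cast hS _ hx.2
    have h3 : cexp (-((z - 1 / 2) * Real.log ((x.1 * x.2 : ℕ) : ℝ))) =
        cexp (-((z - 1 / 2) * Real.log x.1)) * cexp (-((z - 1 / 2) * Real.log x.2)) := by
      rw [← Complex.exp_add]
      congr 1
      push_cast
      rw [Real.log_mul h1.ne' h2.ne']
      push_cast
      ring
    rw [h3]
    ring
  rw [e, ← h]
  refine Finset.sum_congr rfl fun k _ => ?_
  rw [Finset.sum_mul]
  refine Finset.sum_congr rfl fun z hz => ?_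
  rw [(Finset.mem_filter.1 hz).2]

lemma cpow_Rc (n : ℕ) (hn : 1 ≤ n) (a : ℝ) (z : ℂ) :
    (n : ℂ) ^ (-(z + I * a)) =
      cexp (-(((1 / 2 : ℝ) : ℂ) * Real.log n) - I * (a * Real.log n)) *
        cexp (-((z - 1 / 2) * Real.log n)) := by
  have hn0 : (n : ℂ) ≠ 0 := by exact_mod_cast (by omega : n ≠ 0)
  rw [Complex.cpow_def_of_ne_zero hn0, ← Complex.exp_add]
  congr 1
  have h1 : Complex.log (n : ℂ) = ((Real.log n : ℝ) : ℂ) := by
    rw [← Complex.ofReal_natCast, Complex.ofReal_log (by positivity)]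
  rw [h1]
  push_cast
  ring

lemma Dp_Rc (V : ℝ → ℝ) (N : ℕ) (a : ℝ) (z : ℂ) :
    Dp V N (z + I * a) = Rc (Finset.Icc 1 N) (dn V (1 / 2) a) z := by
  unfold Dp Rc dn
  refine Finset.sum_congr rfl fun n hn => ?_
  rw [cpow_Rc n (Finset.mem_Icc.1 hn).1]
  ring

lemma Mp_Rc (V : ℝ → ℝ) (N : ℕ) (a : ℝ) (z : ℂ) :
    Mp V N (z + I * a) = Rc (Finset.Icc 1 N) (bn V (1 / 2) a) z := by
  unfold Mp Rc bn dn
  refine Finset.sum_congr rfl fun n hn => ?_
  rw [cpow_Rc n (Finset.mem_Icc.1 hn).1]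
  ring

lemma pt_shift (σ a t : ℝ) : pt σ (t + a) = pt σ t + I * a := by
  unfold pt
  push_cast
  ring

/-- all products -/
lemma prod_set {P S : Finset ℕ} {α β T : ℝ} (hT : 0 < T) (hP : Len P (T ^ α)) (hS : Len S (T ^ β)) :
    ∃ Q : Finset ℕ, Len Q (T ^ (α + β)) ∧ ∀ m ∈ P, ∀ n ∈ S, m * n ∈ Q := by
  refine ⟨(P ×ˢ S).image (fun z => z.1 * z.2), ?_, fun m hm n hn => ?_⟩
  · intro m hm
    rw [Finset.mem_image] at hm
    obtain ⟨z, hz, rfl⟩ := hm
    rw [Finset.mem_product] at hz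
    obtain ⟨h1, h2⟩ := hP _ hz.1
    obtain ⟨h3, h4⟩ := hS _ hz.2
    refine ⟨Nat.mul_pos h1 h3, ?_⟩
    rw [Real.rpow_add hT]
    push_cast
    exact mul_le_mul h2 h4 (by positivity) (by positivity)
  · rw [Finset.mem_image]
    exact ⟨(m, n), Finset.mem_product.2 ⟨hm, hn⟩, rfl⟩

lemma Rc_mul' {P S : Finset ℕ} {c r : ℕ → ℂ} {α β T : ℝ} (hT : 0 < T) (hP : Len P (T ^ α))
    (hS : Len S (T ^ β)) : ∃ (Q : Finset ℕ) (d : ℕ → ℂ), Len Q (T ^ (α + β)) ∧
    ∀ z : ℂ, Rc P c z * Rc S r z = Rc Q d z := by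
  obtain ⟨Q, hQ, hQ'⟩ := prod_set hT hP hS
  exact ⟨Q, cv P S c r, hQ, fun z => Rc_mul P S c r (fun k hk => (hP k hk).1)
    (fun k hk => (hS k hk).1) Q hQ' z⟩

/-- the product of shifted Dirichlet polynomials and a further one -/
lemma prod_Rc {ι : Type} [DecidableEq ι] {V : ℝ → ℝ} {α β T : ℝ} (hT : 1 ≤ T)
    (a : ι → ℝ) {S : Finset ℕ} (hS : Len S (T ^ β)) (r : ℕ → ℂ) (J : Finset ι) :
    ∃ (Q : Finset ℕ) (d : ℕ → ℂ), Len Q (T ^ (β + J.card * α)) ∧
    ∀ z : ℂ, (∏ j ∈ J, Dp V ⌊T ^ α⌋₊ (z + I * a j)) * Rc S r z = Rc Q d z := by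
  have hT0 : 0 < T := by linarith
  induction J using Finset.induction_on with
  | empty =>
    refine ⟨S, r, ?_, fun z => ?_⟩
    · simpa using hS
    · simp
  | insert i J hi ih =>
    obtain ⟨Q, d, hQ, hd⟩ := ih
    have h1 : Len (Finset.Icc 1 ⌊T ^ α⌋₊) (T ^ α) := fun k hk => by
      rw [Finset.mem_Icc] at hk
      exact ⟨hk.1, (Nat.cast_le.2 hk.2).trans (Nat.floor_le (by positivity))⟩
    obtain ⟨Q', d', hQ', hd'⟩ := Rc_mul' (c := dn V (1 / 2) (a i)) (r := d) hT0 h1 hQ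
    refine ⟨Q', d', ?_, fun z => ?_⟩
    · rw [Finset.card_insert_of_notMem hi]
      push_cast
      have e : β + ((J.card : ℝ) + 1) * α = α + (β + (J.card : ℝ) * α) := by ring
      rw [e]
      exact hQ'
    · rw [Finset.prod_insert hi, mul_assoc, hd z, Dp_Rc, hd' z]

/-! ### twists -/

lemma w1_ru_le {S : Finset ℕ} {N u : ℝ} (hS : Len S N) (hu : 0 ≤ u) (r : ℕ → ℂ) :
    w1 S (ru r u) ≤ w1 S r := by
  unfold w1
  refine Finset.sum_le_sum fun n hn => ?_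
  have hn1 : (1 : ℝ) ≤ n := by exact_mod_cast (hS n hn).1
  have hl0 : 0 ≤ Real.log n := Real.log_nonneg hn1
  unfold ru
  rw [norm_mul, mul_pow, Complex.norm_real, Real.norm_of_nonneg (Real.exp_pos _).le]
  have h1 : Real.exp (-(u * Real.log n)) ≤ 1 := Real.exp_le_one_iff.2 (by
    have := mul_nonneg hu hl0
    linarith)
  have h2 : Real.exp (-(u * Real.log n)) ^ 2 ≤ 1 := pow_le_one₀ (Real.exp_pos _).le h1
  exact mul_le_of_le_one_right (sq_nonneg _) h2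

lemma w1_ru_ge {S : Finset ℕ} {N u : ℝ} (hS : Len S N) (hu : 0 ≤ u) (r : ℕ → ℂ) :
    Real.exp (-(2 * (u * Real.log N))) * w1 S r ≤ w1 S (ru r u) := by
  unfold w1
  rw [Finset.mul_sum]
  refine Finset.sum_le_sum fun n hn => ?_
  obtain ⟨h1, h2⟩ := hS n hn
  have hn1 : (1 : ℝ) ≤ n := by exact_mod_cast h1
  have hl : Real.log n ≤ Real.log N := Real.log_le_log (by linarith) h2
  unfold ru
  rw [norm_mul, mul_pow, Complex.norm_real, Real.norm_of_nonneg (Real.exp_pos _).le,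
    ← Real.exp_nat_mul, mul_comm]
  refine mul_le_mul_of_nonneg_left ?_ (sq_nonneg _)
  apply Real.exp_le_exp.2
  push_cast
  have := mul_le_mul_of_nonneg_left hl hu
  linarith

/-! ### masses -/

/-- two-sided bounds for the mass and its concentration -/
theorem mass2 : ∃ T0 : ℝ, 10 ≤ T0 ∧ ∀ T : ℝ, T0 ≤ T → ∀ S : Finset ℕ, Len S (T ^ (1 / 8 : ℝ)) →
    ∀ (r : ℕ → ℂ) (τ H : ℝ), T ^ (7 / 8 : ℝ) ≤ H →
    ∫ t : ℝ, rh τ H S r t ≤ 2 * mr H S r ∧ 3 / 4 * mr H S r ≤ ∫ t : ℝ, rh τ H S r t ∧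
    1 / 2 * mr H S r ≤ ∫ t in Icc (τ - 8 * H) (τ + 8 * H), rh τ H S r t := by
  obtain ⟨T1, hT1, hm⟩ := rh_mass
  have ev : ∀ᶠ T : ℝ in atTop, Real.log T ≤ T / 16 := by
    have h := Real.isLittleO_log_id_atTop.bound (show (0 : ℝ) < 1 / 16 by norm_num)
    filter_upwards [h, eventually_ge_atTop 1] with T hT hT1
    simp only [id] at hT
    rw [Real.norm_of_nonneg (Real.log_nonneg hT1), Real.norm_of_nonneg (by linarith)] at hT
    linarith
  obtain ⟨T2, hT2⟩ := eventually_atTop.1 ev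
  refine ⟨max (max T1 T2) 64, (by norm_num : (10 : ℝ) ≤ 64).trans (le_max_right _ _),
    fun T hT S hS r τ H hH => ?_⟩
  have hTT1 : T1 ≤ T := ((le_max_left _ _).trans (le_max_left _ _)).trans hT
  have hlog := hT2 T (((le_max_right _ _).trans (le_max_left _ _)).trans hT)
  have hT64 : 64 ≤ T := (le_max_right _ _).trans hT
  have hT0 : 0 < T := by linarith
  have hT1' : 1 ≤ T := by linarith
  have hK : 1 ≤ T ^ (1 / 8 : ℝ) := Real.one_le_rpow hT1' (by norm_num)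
  have hH0 : 0 < H := lt_of_lt_of_le (by positivity) hH
  have hw := w1_nonneg S r
  have hmr : 0 ≤ mr H S r := by unfold mr; positivity
  have h3 : T ^ (1 / 8 : ℝ) * Real.exp (-(H ^ 2) / (8 * (T ^ (1 / 8 : ℝ)) ^ 2)) ≤ 1 / 4 := by
    have h4 : T ≤ H ^ 2 / (T ^ (1 / 8 : ℝ)) ^ 2 := by
      rw [le_div_iff₀ (by positivity), ← Real.rpow_natCast, ← Real.rpow_mul hT0.le]
      calc T * T ^ (1 / 8 * ((2 : ℕ) : ℝ)) = T ^ (1 + 1 / 8 * ((2 : ℕ) : ℝ)) := by
            rw [Real.rpow_add hT0, Real.rpow_one]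
        _ ≤ T ^ (7 / 8 * ((2 : ℕ) : ℝ)) := by
            apply Real.rpow_le_rpow_of_exponent_le hT1'
            norm_num
        _ = (T ^ (7 / 8 : ℝ)) ^ 2 := by rw [Real.rpow_mul hT0.le, Real.rpow_natCast]
        _ ≤ H ^ 2 := pow_le_pow_left₀ (by positivity) hH 2
    have h5 : -(H ^ 2) / (8 * (T ^ (1 / 8 : ℝ)) ^ 2) ≤ -(T / 8) := by
      have e : -(H ^ 2) / (8 * (T ^ (1 / 8 : ℝ)) ^ 2) = -(H ^ 2 / (T ^ (1 / 8 : ℝ)) ^ 2 / 8) := by
        rw [neg_div, div_div, mul_comm (8 : ℝ)]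
      rw [e]
      linarith
    have h6 : T ^ (1 / 8 : ℝ) ≤ T := by
      calc T ^ (1 / 8 : ℝ) ≤ T ^ (1 : ℝ) :=
            Real.rpow_le_rpow_of_exponent_le hT1' (by norm_num)
        _ = T := Real.rpow_one T
    calc T ^ (1 / 8 : ℝ) * Real.exp (-(H ^ 2) / (8 * (T ^ (1 / 8 : ℝ)) ^ 2)) ≤
        T * Real.exp (-(T / 8)) := by
          gcongr
      _ = Real.exp (Real.log T) * Real.exp (-(T / 8)) := by rw [Real.exp_log hT0]
      _ = Real.exp (Real.log T - T / 8) := by rw [← Real.exp_add]; ring_nf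
      _ ≤ Real.exp (-4) := Real.exp_le_exp.2 (by linarith)
      _ ≤ 1 / 4 := by
          rw [Real.exp_neg, one_div]
          refine inv_anti₀ (by norm_num) ?_
          have := Real.add_one_le_exp (4 : ℝ)
          linarith
  have hup := hm T hTT1 S hS r τ H hH
  have h0 := FMaux.int0 (hS.smo) hK hH0 τ r
  have hlo : 3 / 4 * mr H S r ≤ ∫ t : ℝ, rh τ H S r t := by
    have h1 := (abs_le.1 h0).1
    have h2 : Real.sqrt (2 * Real.pi) * H * w1 S r *
        (T ^ (1 / 8 : ℝ) * Real.exp (-(H ^ 2) / (8 * (T ^ (1 / 8 : ℝ)) ^ 2))) ≤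
        Real.sqrt (2 * Real.pi) * H * w1 S r * (1 / 4) := by gcongr
    have e : (∫ t : ℝ, rh τ H S r t) = ∫ t, om τ H t * ‖RP S r t‖ ^ 2 := rfl
    rw [e]
    unfold mr
    linarith
  refine ⟨hup, hlo, ?_⟩
  have hint := rh_intg (τ := τ) hH0 S r
  have hs2 : 0 < Real.sqrt 2 := by positivity
  have hs2' : Real.sqrt 2 ≤ 2 := by
    rw [Real.sqrt_le_left (by norm_num)]
    norm_num
  have hs1' : 1 ≤ Real.sqrt 2 := by
    rw [Real.one_le_sqrt]
    norm_num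
  have hup2 := hm T hTT1 S hS r τ (Real.sqrt 2 * H) (hH.trans (by nlinarith))
  have hint2 := rh_intg (τ := τ) (show 0 < Real.sqrt 2 * H by positivity) S r
  have h5 := integral_add_compl (measurableSet_Icc (a := τ - 8 * H) (b := τ + 8 * H)) hint
  have h6 : ∫ t in (Icc (τ - 8 * H) (τ + 8 * H))ᶜ, rh τ H S r t ≤
      Real.exp (-(8 ^ 2 / 4)) * ∫ t : ℝ, rh τ (Real.sqrt 2 * H) S r t := by
    rw [← integral_const_mul]
    refine le_trans (setIntegral_mono_on hint.integrableOn (hint2.const_mul _).integrableOn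
      measurableSet_Icc.compl fun t ht => ?_) (setIntegral_le_integral (hint2.const_mul _)
      (Eventually.of_forall fun t => mul_nonneg (Real.exp_pos _).le (rh_nonneg _ _ _ _ t)))
    have h7 : (8 : ℝ) * H ≤ |t - τ| := by
      rw [Set.mem_compl_iff, Set.mem_Icc, not_and_or, not_le, not_le] at ht
      rcases ht with ht | ht
      · rw [abs_sub_comm]
        exact le_trans (by linarith) (le_abs_self _)
      · exact le_trans (by linarith) (le_abs_self _)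
    have h8 := om_tail (τ := τ) hH0 (by norm_num : (0 : ℝ) ≤ 8) h7
    unfold rh
    rw [← mul_assoc]
    exact mul_le_mul_of_nonneg_right h8 (sq_nonneg _)
  have h7 : Real.exp (-(8 ^ 2 / 4)) ≤ 1 / 17 := by
    rw [Real.exp_neg, one_div]
    refine inv_anti₀ (by norm_num) ?_
    have := Real.add_one_le_exp ((8 : ℝ) ^ 2 / 4)
    norm_num at this ⊢
    linarith
  have h8 : mr (Real.sqrt 2 * H) S r ≤ 2 * mr H S r := by
    unfold mr
    calc Real.sqrt (2 * Real.pi) * (Real.sqrt 2 * H) * w1 S r =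
        Real.sqrt 2 * (Real.sqrt (2 * Real.pi) * H * w1 S r) := by ring
      _ ≤ 2 * (Real.sqrt (2 * Real.pi) * H * w1 S r) := by gcongr
  have h9 : Real.exp (-(8 ^ 2 / 4)) * ∫ t : ℝ, rh τ (Real.sqrt 2 * H) S r t ≤
      1 / 17 * (2 * (2 * mr H S r)) := by
    refine mul_le_mul h7 (hup2.trans (by linarith)) (integral_nonneg fun t => rh_nonneg _ _ _ _ t)
      (by norm_num)
  linarith

end Run7.h311.DM
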