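import Mathlib

/-! # Lower bounds on the set where the mollified function is close to one -/

set_option autoImplicit false

open Complex Filter Topology Set MeasureTheory
open scoped BigOperators ComplexConjugate

namespace Run7.h311.DM

lemma good_one {A : ℝ} (hA : 0 ≤ A) {z M D : ℂ} (h1 : 4 * ‖z * M - 1‖ ^ 2 ≤ 1)
    (h2 : ‖D * M‖ ^ 2 ≤ A) : ‖D‖ ^ 2 ≤ 4 * A * ‖z‖ ^ 2 := by
  have h3 : 1 / 2 ≤ ‖z * M‖ := by
    have h4 : ‖z * M - 1‖ ≤ 1 / 2 := by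
      have := norm_nonneg (z * M - 1)
      nlinarith
    have h5 : ‖(1 : ℂ)‖ ≤ ‖z * M‖ + ‖z * M - 1‖ := by
      have := norm_sub_le (z * M) (z * M - 1)
      simpa using this
    rw [norm_one] at h5
    linarith
  rw [norm_mul] at h3
  rw [norm_mul, mul_pow] at h2
  have hM : 0 < ‖M‖ := by
    rcases (norm_nonneg M).eq_or_lt with h | h
    · rw [← h, mul_zero] at h3
      norm_num at h3
    · exact h
  have h6 : 1 / 4 ≤ ‖z‖ ^ 2 * ‖M‖ ^ 2 := by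
    rw [← mul_pow]
    nlinarith
  have h7 : ‖D‖ ^ 2 * ‖M‖ ^ 2 ≤ 4 * A * ‖z‖ ^ 2 * ‖M‖ ^ 2 := by
    nlinarith
  exact le_of_mul_le_mul_right h7 (by positivity)

/-- pointwise -/
lemma good_pt {ι : Type} [Fintype ι] {A : ℝ} (hA : 0 < A) {z M D : ι → ℂ} {ρ o : ℝ} (hρ : 0 ≤ ρ)
    (ho0 : 0 ≤ o) (ho1 : o ≤ 1) :
    ((4 * A) ^ Fintype.card ι)⁻¹ * (o * ((∏ j, ‖D j‖ ^ 2) * ρ)) ≤ (∏ j, ‖z j‖ ^ 2) * ρ +
      ((4 * A) ^ Fintype.card ι)⁻¹ * ∑ j, (4 * ((o * ((∏ j, ‖D j‖ ^ 2) * ρ)) * ‖z j * M j - 1‖ ^ 2) +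
        (o * ((∏ j, ‖D j‖ ^ 2) * ρ)) * ‖D j * M j‖ ^ 2 / A) := by
  have hP : 0 ≤ ∏ j, ‖D j‖ ^ 2 := Finset.prod_nonneg fun j _ => sq_nonneg _
  have hPz : 0 ≤ ∏ j, ‖z j‖ ^ 2 := Finset.prod_nonneg fun j _ => sq_nonneg _
  obtain ⟨W, hW⟩ : ∃ W : ℝ, W = o * ((∏ j, ‖D j‖ ^ 2) * ρ) := ⟨_, rfl⟩
  have hW0 : 0 ≤ W := by rw [hW]; positivity
  rw [← hW]
  have h4A : 0 < (4 * A) ^ Fintype.card ι := by positivity
  have hterm : ∀ j, 0 ≤ 4 * (W * ‖z j * M j - 1‖ ^ 2) + W * ‖D j * M j‖ ^ 2 / A := by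
    intro j
    positivity
  by_cases h : ∀ j, 4 * ‖z j * M j - 1‖ ^ 2 ≤ 1 ∧ ‖D j * M j‖ ^ 2 ≤ A
  · have h1 : ∏ j, ‖D j‖ ^ 2 ≤ (4 * A) ^ Fintype.card ι * ∏ j, ‖z j‖ ^ 2 := by
      have h2 : ∏ j, ‖D j‖ ^ 2 ≤ ∏ j, (4 * A * ‖z j‖ ^ 2) :=
        Finset.prod_le_prod (fun j _ => sq_nonneg _) fun j _ => good_one hA.le (h j).1 (h j).2
      rw [Finset.prod_mul_distrib, Finset.prod_const, Finset.card_univ] at h2
      exact h2
    have h2 : W ≤ (4 * A) ^ Fintype.card ι * ((∏ j, ‖z j‖ ^ 2) * ρ) := by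
      rw [hW]
      calc o * ((∏ j, ‖D j‖ ^ 2) * ρ) ≤ 1 * ((∏ j, ‖D j‖ ^ 2) * ρ) := by gcongr
        _ = (∏ j, ‖D j‖ ^ 2) * ρ := one_mul _
        _ ≤ ((4 * A) ^ Fintype.card ι * ∏ j, ‖z j‖ ^ 2) * ρ := by gcongr
        _ = _ := by ring
    have h3 : ((4 * A) ^ Fintype.card ι)⁻¹ * W ≤ (∏ j, ‖z j‖ ^ 2) * ρ := by
      rw [inv_mul_le_iff₀ h4A]
      exact h2
    have h4 : 0 ≤ ((4 * A) ^ Fintype.card ι)⁻¹ *
        ∑ j, (4 * (W * ‖z j * M j - 1‖ ^ 2) + W * ‖D j * M j‖ ^ 2 / A) :=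
      mul_nonneg (by positivity) (Finset.sum_nonneg fun j _ => hterm j)
    linarith
  · push Not at h
    obtain ⟨j, hj⟩ := h
    have h1 : W ≤ 4 * (W * ‖z j * M j - 1‖ ^ 2) + W * ‖D j * M j‖ ^ 2 / A := by
      by_cases h2 : 4 * ‖z j * M j - 1‖ ^ 2 ≤ 1
      · have h3 := hj h2
        have h4 : 1 ≤ ‖D j * M j‖ ^ 2 / A := by
          rw [le_div_iff₀ hA]
          linarith
        have h5 : W * 1 ≤ W * (‖D j * M j‖ ^ 2 / A) := mul_le_mul_of_nonneg_left h4 hW0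
        have h6 : 0 ≤ 4 * (W * ‖z j * M j - 1‖ ^ 2) := by positivity
        rw [mul_div_assoc]
        linarith
      · push Not at h2
        have h5 : W * 1 ≤ W * (4 * ‖z j * M j - 1‖ ^ 2) := mul_le_mul_of_nonneg_left h2.le hW0
        have h6 : 0 ≤ W * ‖D j * M j‖ ^ 2 / A := by positivity
        linarith
    have h2 : W ≤ ∑ j, (4 * (W * ‖z j * M j - 1‖ ^ 2) + W * ‖D j * M j‖ ^ 2 / A) :=
      h1.trans (Finset.single_le_sum (f := fun j => 4 * (W * ‖z j * M j - 1‖ ^ 2) +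
        W * ‖D j * M j‖ ^ 2 / A) (fun j _ => hterm j) (Finset.mem_univ j))
    have h3 : ((4 * A) ^ Fintype.card ι)⁻¹ * W ≤ ((4 * A) ^ Fintype.card ι)⁻¹ *
        ∑ j, (4 * (W * ‖z j * M j - 1‖ ^ 2) + W * ‖D j * M j‖ ^ 2 / A) :=
      mul_le_mul_of_nonneg_left h2 (by positivity)
    have h4 : 0 ≤ (∏ j, ‖z j‖ ^ 2) * ρ := by positivity
    linarith

/-- integrated -/
theorem good_int {ι : Type} [Fintype ι] {A x y : ℝ} (hA : 0 < A)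
    {z M D : ι → ℝ → ℂ} {ρ o w : ℝ → ℝ} (hz : ∀ j, ContinuousOn (z j) (Icc x y))
    (hM : ∀ j, Continuous (M j)) (hD : ∀ j, Continuous (D j)) (hρ : Continuous ρ)
    (hw : Continuous w) (hρ0 : ∀ t, 0 ≤ ρ t) (ho0 : ∀ t, 0 ≤ o t) (ho1 : ∀ t, o t ≤ 1)
    (hwe : ∀ t, w t = o t * ((∏ j, ‖D j t‖ ^ 2) * ρ t)) {m0 ε₁ Y : ℝ}
    (h0 : 1 / 2 * m0 ≤ ∫ t in Icc x y, w t)
    (h1 : ∀ j, ∫ t in Icc x y, w t * ‖z j t * M j t - 1‖ ^ 2 ≤ ε₁ * m0)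
    (h2 : ∀ j, ∫ t in Icc x y, w t * ‖D j t * M j t‖ ^ 2 ≤ Y * m0) (hm0 : 0 ≤ m0)
    (h3 : (Fintype.card ι : ℝ) * (4 * ε₁ + Y / A) ≤ 1 / 4) :
    ((4 * A) ^ Fintype.card ι)⁻¹ * (1 / 4 * m0) ≤
      ∫ t in Icc x y, (∏ j, ‖z j t‖ ^ 2) * ρ t := by
  have c1 : ContinuousOn (fun t => (∏ j, ‖z j t‖ ^ 2) * ρ t) (Icc x y) := by
    refine ContinuousOn.mul (continuousOn_finset_prod _ fun j _ => ?_) hρ.continuousOn
    exact (hz j).norm.pow 2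
  have c2 : ∀ j, ContinuousOn (fun t => w t * ‖z j t * M j t - 1‖ ^ 2) (Icc x y) := fun j =>
    hw.continuousOn.mul ((((hz j).mul (hM j).continuousOn).sub continuousOn_const).norm.pow 2)
  have c3 : ∀ j, ContinuousOn (fun t => w t * ‖D j t * M j t‖ ^ 2) (Icc x y) := fun j =>
    (hw.mul (((hD j).mul (hM j)).norm.pow 2)).continuousOn
  have i0 := hw.continuousOn.integrableOn_Icc (μ := volume) (a := x) (b := y)
  have i1 := c1.integrableOn_Icc (μ := volume)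
  have i2 := fun j => (c2 j).integrableOn_Icc (μ := volume)
  have i3 := fun j => (c3 j).integrableOn_Icc (μ := volume)
  obtain ⟨K, hK⟩ : ∃ K : ℝ, K = ((4 * A) ^ Fintype.card ι)⁻¹ := ⟨_, rfl⟩
  have hK0 : 0 ≤ K := by rw [hK]; positivity
  have i4 : ∀ j, IntegrableOn (fun t => 4 * (w t * ‖z j t * M j t - 1‖ ^ 2) +
      w t * ‖D j t * M j t‖ ^ 2 / A) (Icc x y) := fun j =>
    ((i2 j).const_mul 4).add ((i3 j).div_const A)
  have i5 : IntegrableOn (fun t => K * ∑ j, (4 * (w t * ‖z j t * M j t - 1‖ ^ 2) +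
      w t * ‖D j t * M j t‖ ^ 2 / A)) (Icc x y) :=
    (integrable_finset_sum _ fun j _ => i4 j).const_mul K
  have key : ∫ t in Icc x y, K * w t ≤ ∫ t in Icc x y, ((∏ j, ‖z j t‖ ^ 2) * ρ t +
      K * ∑ j, (4 * (w t * ‖z j t * M j t - 1‖ ^ 2) + w t * ‖D j t * M j t‖ ^ 2 / A)) := by
    refine setIntegral_mono_on (i0.const_mul K) (i1.add i5) measurableSet_Icc fun t _ => ?_
    have h4 := good_pt hA (z := fun j => z j t) (M := fun j => M j t) (D := fun j => D j t)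
      (hρ0 t) (ho0 t) (ho1 t)
    rw [← hwe t, ← hK] at h4
    exact h4
  rw [integral_const_mul, integral_add i1 i5, integral_const_mul,
    integral_finset_sum _ fun j _ => i4 j] at key
  have h5 : ∑ j, ∫ t in Icc x y, (4 * (w t * ‖z j t * M j t - 1‖ ^ 2) +
      w t * ‖D j t * M j t‖ ^ 2 / A) ≤ (Fintype.card ι : ℝ) * ((4 * ε₁ + Y / A) * m0) := by
    rw [← nsmul_eq_mul, ← Finset.card_univ]
    refine Finset.sum_le_card_nsmul _ _ _ fun j _ => ?_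
    rw [integral_add ((i2 j).const_mul 4) ((i3 j).div_const A), integral_const_mul,
      integral_div]
    have h6 := h1 j
    have h7 := div_le_div_of_nonneg_right (h2 j) hA.le
    have e : (4 * ε₁ + Y / A) * m0 = 4 * (ε₁ * m0) + Y * m0 / A := by ring
    rw [e]
    linarith
  have h6 : (Fintype.card ι : ℝ) * ((4 * ε₁ + Y / A) * m0) ≤ 1 / 4 * m0 := by
    rw [← mul_assoc]
    exact mul_le_mul_of_nonneg_right h3 hm0
  have h7 := mul_le_mul_of_nonneg_left h0 hK0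
  have h8 := mul_le_mul_of_nonneg_left (h5.trans h6) hK0
  rw [← hK]
  linarith

end Run7.h311.DM
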