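import Pool.Agent.Run7.h311.DM.Trans
import Pool.Agent.Run7.h311.DM.Good
import Pool.Agent.Run7.h311.MO.Right

/-! # Domination of short Dirichlet polynomials by zeta in every weight -/

set_option autoImplicit false

open Complex Filter Topology Set MeasureTheory
open scoped BigOperators ComplexConjugate

namespace Run7.h311.DM

open TC (om om_pos om_cont om_integrable om_le_one)
open Run7.h311.MO
open Pool.Agent.N802 Pool.Agent.N802.U Pool.Agent.N802.WD Pool.Agent.N802.WD.Msd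
open Pool.Agent.R399.TW (pt pt_re pt_im pt_cont)

lemma restr {T x y : ℝ} (hT : 0 ≤ T) {f : ℝ → ℝ} (hf : ContinuousOn f (Icc T (2 * T)))
    (h0 : ∀ t, 0 ≤ f t) (hx : T ≤ x) (hy : y ≤ 2 * T) :
    ∫ t in Icc x y, f t ≤ ∫ t in T..(2 * T), f t := by
  rw [intervalIntegral.integral_of_le (by linarith), ← integral_Icc_eq_integral_Ioc]
  exact setIntegral_mono_set hf.integrableOn_Icc (Eventually.of_forall fun t => h0 t)
    (LE.le.eventuallyLE (Icc_subset_Icc hx hy))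

lemma len_Icc {T α : ℝ} (hT : 0 < T) : Len (Finset.Icc 1 ⌊T ^ α⌋₊) (T ^ α) := fun k hk => by
  rw [Finset.mem_Icc] at hk
  exact ⟨hk.1, (Nat.cast_le.2 hk.2).trans (Nat.floor_le (by positivity))⟩

/-- the twisted coefficients carry a fixed share of the mass -/
lemma mr_ru {S : Finset ℕ} {T L B u θ H : ℝ} (hT : 0 < T) (hL : L = Real.log T) (hL0 : 0 < L)
    (hB : 0 ≤ B) (hu : u = B / L) (hθ : θ ≤ 1) (hS : Len S (T ^ θ)) (r : ℕ → ℂ)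
    (hH : 0 ≤ H) : mr H S r ≤ Real.exp (2 * B) * mr H S (ru r u) := by
  have hu0 : 0 ≤ u := by rw [hu]; positivity
  have h1 := w1_ru_ge hS hu0 r
  rw [Real.log_rpow hT, ← hL] at h1
  have e : u * (θ * L) = θ * B := by
    rw [hu]
    field_simp
  rw [e] at h1
  have h2 : Real.exp (-(2 * B)) ≤ Real.exp (-(2 * (θ * B))) := by
    apply Real.exp_le_exp.2
    nlinarith
  have hw := w1_nonneg S r
  have h3 : Real.exp (-(2 * B)) * w1 S r ≤ w1 S (ru r u) :=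
    (mul_le_mul_of_nonneg_right h2 hw).trans h1
  have h4 : w1 S r ≤ Real.exp (2 * B) * w1 S (ru r u) := by
    have h5 := mul_le_mul_of_nonneg_left h3 (Real.exp_pos (2 * B)).le
    rw [← mul_assoc, ← Real.exp_add, add_neg_cancel, Real.exp_zero, one_mul] at h5
    exact h5
  unfold mr
  calc Real.sqrt (2 * Real.pi) * H * w1 S r ≤
      Real.sqrt (2 * Real.pi) * H * (Real.exp (2 * B) * w1 S (ru r u)) := by gcongr
    _ = _ := by ring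

lemma mr_ru_le {S : Finset ℕ} {N u H : ℝ} (hS : Len S N) (hu : 0 ≤ u) (r : ℕ → ℂ)
    (hH : 0 ≤ H) : mr H S (ru r u) ≤ mr H S r := by
  have := w1_ru_le hS hu r
  unfold mr
  gcongr

/-- the smooth partial sum times the mollifier to the right of the critical line -/
lemma dm_bound {T L B u α θ τ H am : ℝ} {V : ℝ → ℝ} (hT : 1 ≤ T) (hL : L = Real.log T)
    (hL0 : 0 < L) (hB : 0 ≤ B) (hu : u = B / L) (hθ : θ ≤ 1)
    (hαθ : 2 * α + θ ≤ 1 / 8) (hH : 0 < H) (ham : 0 ≤ am)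
    (hmass : ∀ S : Finset ℕ, Len S (T ^ (1 / 8 : ℝ)) → ∀ r : ℕ → ℂ,
      ∫ t : ℝ, rh τ H S r t ≤ 2 * mr H S r ∧ 3 / 4 * mr H S r ≤ ∫ t : ℝ, rh τ H S r t)
    {Q : Finset ℕ} (hQ : Len Q (T ^ θ)) (d : ℕ → ℂ) (a : ℝ)
    (hms : ∫ t : ℝ, rh τ H Q d t * (‖Dp V ⌊T ^ α⌋₊ (pt (1 / 2) (t + a))‖ ^ 2 *
      ‖Mp V ⌊T ^ α⌋₊ (pt (1 / 2) (t + a))‖ ^ 2) ≤ am * mr H Q d) :
    (∀ t : ℝ, 0 ≤ rh τ H Q (ru d u) t * ‖Dp V ⌊T ^ α⌋₊ (pt (1 / 2 + u) t + I * a) *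
      Mp V ⌊T ^ α⌋₊ (pt (1 / 2 + u) t + I * a)‖ ^ 2) ∧
    Integrable (fun t : ℝ => rh τ H Q (ru d u) t * ‖Dp V ⌊T ^ α⌋₊ (pt (1 / 2 + u) t + I * a) *
      Mp V ⌊T ^ α⌋₊ (pt (1 / 2 + u) t + I * a)‖ ^ 2) ∧
    ∫ t : ℝ, rh τ H Q (ru d u) t * ‖Dp V ⌊T ^ α⌋₊ (pt (1 / 2 + u) t + I * a) *
      Mp V ⌊T ^ α⌋₊ (pt (1 / 2 + u) t + I * a)‖ ^ 2 ≤
      (3 * am * Real.exp (2 * B)) * mr H Q (ru d u) := by
  have hT0 : 0 < T := by linarith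
  have hu0 : 0 ≤ u := by rw [hu]; positivity
  obtain ⟨Q₁, e₁, hQ₁, he₁⟩ := Rc_mul' (c := dn V (1 / 2) a) (r := bn V (1 / 2) a) hT0
    (len_Icc (α := α) hT0) (len_Icc (α := α) hT0)
  obtain ⟨Q₂, e₂, hQ₂, he₂⟩ := Rc_mul' (c := e₁) (r := d) hT0 hQ₁ hQ
  have hQ₂' : Len Q₂ (T ^ (1 / 8 : ℝ)) :=
    Len_mono hQ₂ (Real.rpow_le_rpow_of_exponent_le hT (by linarith))
  have hz : ∀ z : ℂ, Dp V ⌊T ^ α⌋₊ (z + I * a) * Mp V ⌊T ^ α⌋₊ (z + I * a) * Rc Q d z =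
      Rc Q₂ e₂ z := by
    intro z
    rw [Dp_Rc, Mp_Rc, he₁ z, he₂ z]
  have heq : ∀ t : ℝ, rh τ H Q (ru d u) t * ‖Dp V ⌊T ^ α⌋₊ (pt (1 / 2 + u) t + I * a) *
      Mp V ⌊T ^ α⌋₊ (pt (1 / 2 + u) t + I * a)‖ ^ 2 = rh τ H Q₂ (ru e₂ u) t := by
    intro t
    unfold rh
    rw [← Rc_pt, ← Rc_pt, ← hz, norm_mul (_ * _) (Rc Q d _), mul_pow]
    ring
  have heq0 : ∀ t : ℝ, rh τ H Q d t * (‖Dp V ⌊T ^ α⌋₊ (pt (1 / 2) (t + a))‖ ^ 2 *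
      ‖Mp V ⌊T ^ α⌋₊ (pt (1 / 2) (t + a))‖ ^ 2) = rh τ H Q₂ e₂ t := by
    intro t
    unfold rh
    rw [← Rc_half, ← Rc_half, ← hz, norm_mul, norm_mul, pt_shift]
    ring
  simp_rw [heq]
  simp_rw [heq0] at hms
  refine ⟨fun t => rh_nonneg _ _ _ _ t, rh_intg hH _ _, ?_⟩
  · refine ((hmass Q₂ hQ₂' (ru e₂ u)).1).trans ?_
    have h1 := mr_ru_le hQ₂' hu0 e₂ hH.le
    have h2 := (hmass Q₂ hQ₂' e₂).2
    have h3 := mr_ru hT0 hL hL0 hB hu hθ hQ d hH.le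
    have h4 : am * mr H Q d ≤ am * (Real.exp (2 * B) * mr H Q (ru d u)) :=
      mul_le_mul_of_nonneg_left h3 ham
    have h5 : 0 ≤ am * (Real.exp (2 * B) * mr H Q (ru d u)) := by
      have := w1_nonneg Q (ru d u)
      unfold mr
      positivity
    calc 2 * mr H Q₂ (ru e₂ u) ≤ 2 * (4 / 3 * (am * (Real.exp (2 * B) * mr H Q (ru d u)))) := by
          linarith
      _ ≤ 3 * (am * (Real.exp (2 * B) * mr H Q (ru d u))) := by linarith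
      _ = _ := by ring

end Run7.h311.DM
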