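import Pool.Agent.Run7.h311.DM.Dom

/-! # The main theorem -/

set_option autoImplicit false

open Complex Filter Topology Set MeasureTheory
open scoped BigOperators ComplexConjugate

namespace Run7.h311.DM

open TC (om om_pos om_cont om_integrable om_le_one)
open Run7.h311.MO
open Pool.Agent.N802 Pool.Agent.N802.U Pool.Agent.N802.WD Pool.Agent.N802.WD.Msd
open Pool.Agent.R399.TW (pt pt_re pt_im pt_cont)

/-- the choice of the distance to the line -/
lemma pickB {C β K : ℝ} (hC : 0 < C) (hβ : 0 < β) (hK : 0 < K) :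
    ∃ B : ℝ, 1 ≤ B ∧ K * (4 * (C * Real.exp (-(β * B)))) ≤ 1 / 8 := by
  have h1 : Tendsto (fun B : ℝ => K * (4 * (C * Real.exp (-(β * B))))) atTop
      (𝓝 (K * (4 * (C * 0)))) := by
    refine Tendsto.const_mul _ (Tendsto.const_mul _ (Tendsto.const_mul _ ?_))
    refine Real.tendsto_exp_neg_atTop_nhds_zero.comp ?_
    exact tendsto_id.const_mul_atTop hβ
  have h2 : ∀ᶠ B : ℝ in atTop, K * (4 * (C * Real.exp (-(β * B)))) < 1 / 8 := by
    refine h1.eventually (gt_mem_nhds ?_)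
    norm_num
  obtain ⟨B, hB1, hB2⟩ := (h2.and (eventually_ge_atTop 1)).exists
  exact ⟨B, hB2, hB1.le⟩

lemma n1_le {T δ : ℝ} {S : Finset ℕ} (hT : 1 ≤ T) (hδ0 : 0 ≤ δ) (hδ : δ ≤ 1) (hS : Len S (T ^ δ))
    (r : ℕ → ℂ) : n1 S r ^ 2 ≤ T * w1 S r := by
  have h1 := n1_sq_le S r (K0 := T ^ δ) hS (Real.one_le_rpow hT hδ0)
  have h2 : T ^ δ ≤ T := by
    calc T ^ δ ≤ T ^ (1 : ℝ) := Real.rpow_le_rpow_of_exponent_le hT hδ
      _ = T := Real.rpow_one T
  exact h1.trans (mul_le_mul_of_nonneg_right h2 (w1_nonneg S r))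

theorem domin (m : ℕ) : ∃ δ α c T0 : ℝ, 0 < δ ∧ 0 < α ∧ 0 < c ∧ ∀ T : ℝ, T0 ≤ T → ∃ V : ℝ → ℝ,
    (∀ x, 0 ≤ V x ∧ V x ≤ 1) ∧ (∀ x, x ≤ α / 2 * Real.log T → V x = 1) ∧
    (∀ x, α * Real.log T ≤ x → V x = 0) ∧
    ∀ a : Fin m → ℝ, (∀ j, |a j| ≤ T / 8) → ∀ S : Finset ℕ, Len S (T ^ δ) → ∀ (r : ℕ → ℂ) (U H : ℝ),
    T ≤ U → U + H ≤ 2 * T → T ^ (1 - δ) ≤ H →
    c * ∫ t in Icc U (U + H), (∏ j, ‖Dp V ⌊T ^ α⌋₊ (pt (1 / 2) t + I * a j)‖ ^ 2) * ‖RP S r t‖ ^ 2 ≤
      ∫ t in Icc U (U + H), (∏ j, ‖riemannZeta (pt (1 / 2) t + I * a j)‖ ^ 2) * ‖RP S r t‖ ^ 2 := by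
  obtain ⟨q, Co, hCo, hq⟩ := msdc
  obtain ⟨κ, ε, δr, hκ, hε, hδr, hδr32, hδrε, hX⟩ := rightC hCo hq ker
  have hm1 : (0 : ℝ) < (m : ℝ) + 1 := by positivity
  have hm1' : (1 : ℝ) ≤ (m : ℝ) + 1 := by linarith [(Nat.cast_nonneg m : (0 : ℝ) ≤ m)]
  obtain ⟨α, hα⟩ : ∃ α : ℝ, α = δr / (4 * ((m : ℝ) + 1)) := ⟨_, rfl⟩
  have hα0 : 0 < α := by rw [hα]; positivity
  have hαm : (m + 1 : ℝ) * α = δr / 4 := by rw [hα]; field_simp
  have hα4 : α ≤ δr / 4 := by
    calc α = 1 * α := (one_mul _).symm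
      _ ≤ ((m : ℝ) + 1) * α := by gcongr
      _ = δr / 4 := hαm
  obtain ⟨C₀, C, Tr, hC₀, hC, hTr, hXr⟩ := hX (α / 2) α (by positivity) (by linarith) (by linarith)
  obtain ⟨am, Tm, ham, hTm, hM⟩ := hq (α / 2) α (α / 2) α κ ε C₀ ε δr (by positivity) (by linarith)
    (by positivity) (by linarith) hκ hε hC₀ hε hδr (by rw [min_self]; exact hδrε) (by linarith)
  obtain ⟨B, hB1, hB⟩ := pickB hC (show 0 < α / 2 by positivity) hm1
  obtain ⟨Ct, hCt, htr⟩ := transfer m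
  obtain ⟨Y, hY⟩ : ∃ Y : ℝ, Y = 3 * am * Real.exp (2 * B) := ⟨_, rfl⟩
  have hY0 : 0 < Y := by rw [hY]; positivity
  obtain ⟨A, hA⟩ : ∃ A : ℝ, A = 8 * ((m : ℝ) + 1) * Y := ⟨_, rfl⟩
  have hA0 : 0 < A := by rw [hA]; positivity
  obtain ⟨T1, hT1, hmass⟩ := mass2
  have hev : ∀ᶠ T : ℝ in atTop, 32 * T ^ (1 - δr) ≤ T ^ (1 - δr / 4) := by
    have h1 : Tendsto (fun T : ℝ => T ^ (3 / 4 * δr)) atTop atTop :=
      tendsto_rpow_atTop (by positivity)
    filter_upwards [h1.eventually_ge_atTop 32, eventually_gt_atTop 0] with T h2 h3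
    have e : T ^ (1 - δr / 4) = T ^ (3 / 4 * δr) * T ^ (1 - δr) := by
      rw [← Real.rpow_add h3]
      congr 1
      ring
    rw [e]
    gcongr
  obtain ⟨T2, hT2⟩ := eventually_atTop.1 hev
  obtain ⟨K2, hK2⟩ : ∃ K2 : ℝ, K2 = (64 * ((m : ℝ) + 1)) ^ m * (4 * Real.exp (2 * B)) := ⟨_, rfl⟩
  have hK20 : 0 < K2 := by rw [hK2]; positivity
  refine ⟨δr / 4, α, ((4 * A) ^ m)⁻¹ * (1 / 4) * (Real.exp (2 * B))⁻¹ / 32 / 4 / (2 * Ct),
    max (max (max Tr Tm) (max T1 T2)) (max (max 100 (Real.exp B)) (2 * Ct * K2)),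
    by positivity, hα0, by positivity, fun T hT => ?_⟩
  have hTa := (le_max_left _ _).trans hT
  have hTb := (le_max_right _ _).trans hT
  have hTTr : Tr ≤ T := ((le_max_left _ _).trans (le_max_left _ _)).trans hTa
  have hTTm : Tm ≤ T := ((le_max_right _ _).trans (le_max_left _ _)).trans hTa
  have hTT1 : T1 ≤ T := ((le_max_left _ _).trans (le_max_right _ _)).trans hTa
  have hTT2 : T2 ≤ T := ((le_max_right _ _).trans (le_max_right _ _)).trans hTa
  have hT100 : 100 ≤ T := ((le_max_left _ _).trans (le_max_left _ _)).trans hTb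
  have hTB : Real.exp B ≤ T := ((le_max_right _ _).trans (le_max_left _ _)).trans hTb
  have hTK : 2 * Ct * K2 ≤ T := (le_max_right _ _).trans hTb
  have hTp : 0 < T := by linarith
  have hT1' : 1 ≤ T := by linarith
  obtain ⟨L, hL⟩ : ∃ L : ℝ, L = Real.log T := ⟨_, rfl⟩
  have hBL : B ≤ L := by
    rw [hL, Real.le_log_iff_exp_le hTp]
    exact hTB
  have hLp : 0 < L := by linarith
  obtain ⟨u, hu⟩ : ∃ u : ℝ, u = B / L := ⟨_, rfl⟩
  have hu0 : 0 < u := by rw [hu]; positivity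
  have hu1 : u ≤ 1 := by rw [hu, div_le_one hLp]; exact hBL
  obtain ⟨V, Kv, hcf, hR⟩ := hXr T hTTr
  refine ⟨V, fun x => ⟨hcf.nn x, hcf.le x⟩, hcf.one, hcf.zero, ?_⟩
  intro a ha S hS r U H hU hUH hH
  -- the windows
  have hH32 : 32 * T ^ (1 - δr) ≤ H := (hT2 T hTT2).trans hH
  obtain ⟨H₁, hH₁⟩ : ∃ H₁ : ℝ, H₁ = H / 32 := ⟨_, rfl⟩
  have hH₁r : T ^ (1 - δr) ≤ H₁ := by rw [hH₁]; linarith
  have hH₁7 : T ^ (7 / 8 : ℝ) ≤ H₁ :=
    (Real.rpow_le_rpow_of_exponent_le hT1' (by linarith)).trans hH₁r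
  have hH₁1 : 1 ≤ H₁ := (Real.one_le_rpow hT1' (by norm_num)).trans hH₁7
  have hH₁0 : 0 < H₁ := by linarith
  have hH7 : T ^ (7 / 8 : ℝ) ≤ H := hH₁7.trans (by rw [hH₁]; linarith)
  have hH0 : 0 < H := by rw [hH₁] at hH₁0; linarith
  obtain ⟨τ, hτ⟩ : ∃ τ : ℝ, τ = U + H / 2 := ⟨_, rfl⟩
  obtain ⟨x, hx⟩ : ∃ x : ℝ, x = τ - 8 * H₁ := ⟨_, rfl⟩
  obtain ⟨y, hy⟩ : ∃ y : ℝ, y = τ + 8 * H₁ := ⟨_, rfl⟩
  have hxU : U ≤ x - H₁ := by rw [hx, hτ, hH₁]; linarith
  have hyU : y + H₁ ≤ U + H := by rw [hy, hτ, hH₁]; linarith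
  have hxy : x ≤ y := by rw [hx, hy]; linarith
  have hsub : ∀ t ∈ Icc x y, T ≤ t := fun t ht => by linarith [ht.1]
  obtain ⟨N, hN⟩ : ∃ N : ℕ, N = ⌊T ^ α⌋₊ := ⟨_, rfl⟩
  -- the weights
  obtain ⟨Q, d, hQ0, hd⟩ := prod_Rc (V := V) (α := α) hT1' a hS r (Finset.univ : Finset (Fin m))
  rw [Finset.card_univ, Fintype.card_fin] at hQ0
  have hQ : Len Q (T ^ (δr / 2)) := Len_mono hQ0 (Real.rpow_le_rpow_of_exponent_le hT1' (by
    have : (m : ℝ) * α ≤ (m + 1) * α := by gcongr; linarith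
    linarith))
  have hQr : Len Q (T ^ δr) := Len_mono hQ (Real.rpow_le_rpow_of_exponent_le hT1' (by linarith))
  have hQ8 : Len Q (T ^ (1 / 8 : ℝ)) :=
    Len_mono hQ (Real.rpow_le_rpow_of_exponent_le hT1' (by linarith))
  have hSr : Len S (T ^ δr) := Len_mono hS (Real.rpow_le_rpow_of_exponent_le hT1' (by linarith))
  have hS8 : Len S (T ^ (1 / 8 : ℝ)) :=
    Len_mono hS (Real.rpow_le_rpow_of_exponent_le hT1' (by linarith))
  rw [← hN] at hd ⊢
  have hms := fun j => hM T hTTm V V Kv Kv hcf hcf Q hQr d τ H₁ hH₁r 0 0 (by simpa using by linarith)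
    (by simpa using by linarith) (a j) 0
  rw [← hN] at hR hms
  simp only [zero_div, add_zero] at hms
  rw [← hL] at hms hR
  -- zeta times the mollifier
  have hzc : ∀ j, ContinuousOn (fun t : ℝ => riemannZeta (pt (1 / 2 + u) t + I * a j))
      (Icc T (2 * T)) := by
    intro j t ht
    refine ContinuousAt.continuousWithinAt ?_
    exact ContinuousAt.comp (f := fun t : ℝ => pt (1 / 2 + u) t + I * a j) (g := riemannZeta)
      (differentiableAt_riemannZeta (pt_ne hT100 (ha j) ht.1)).continuousAt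
      ((pt_cont _).add continuous_const).continuousAt
  have hMc : ∀ j, Continuous (fun t : ℝ => Mp V N (pt (1 / 2 + u) t + I * a j)) := fun j =>
    (WD.Mp_diff V N).continuous.comp ((pt_cont _).add continuous_const)
  have hDc : ∀ j, Continuous (fun t : ℝ => Dp V N (pt (1 / 2 + u) t + I * a j)) := by
    intro j
    have e : (fun t : ℝ => Dp V N (pt (1 / 2 + u) t + I * a j)) =
        fun t : ℝ => Rc (Finset.Icc 1 N) (dn V (1 / 2) (a j)) (pt (1 / 2 + u) t) := by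
      funext t
      rw [Dp_Rc]
    rw [e]
    exact (Rc_diff _ _).continuous.comp (pt_cont _)
  have hzm : ∀ (P : Finset ℕ) (p : ℕ → ℂ), Len P (T ^ δr) → ∀ j,
      ∫ t in Icc x y, rh τ H₁ P p t * ‖riemannZeta (pt (1 / 2 + u) t + I * a j) *
        Mp V N (pt (1 / 2 + u) t + I * a j) - 1‖ ^ 2 ≤
      (C * Real.exp (-(α / 2 * B))) * mr H₁ P p := by
    intro P p hP j
    have h1 := hR P hP p τ H₁ hH₁r (a j) ((ha j).trans (by linarith)) u
      (by
        have : 0 ≤ 1 / (2 * L) := by positivity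
        linarith) (by linarith)
    have e : α / 2 * L * u = α / 2 * B := by
      rw [hu]
      field_simp
    rw [e] at h1
    refine le_trans ?_ h1
    have h2 := restr (T := T) (x := x) (y := y) (f := fun t => rh τ H₁ P p t *
      ‖riemannZeta (pt (1 / 2 + u) t + I * a j) * Mp V N (pt (1 / 2 + u) t + I * a j) - 1‖ ^ 2)
      hTp.le ((rh_cont _ _ _ _).continuousOn.mul
        ((((hzc j).mul (hMc j).continuousOn).sub continuousOn_const).norm.pow 2))
      (fun t => mul_nonneg (rh_nonneg _ _ _ _ t) (sq_nonneg _)) (by linarith) (by linarith)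
    refine h2.trans (le_of_eq ?_)
    simp only [pt_shift]
  -- the first lower bound
  obtain ⟨I₀, hI₀⟩ : ∃ I₀ : ℝ, I₀ = ∫ t in Icc x y, ‖zp a S r (pt (1 / 2 + u) t)‖ ^ 2 := ⟨_, rfl⟩
  have hzp : ∀ (σ t : ℝ), ‖zp a S r (pt σ t)‖ ^ 2 =
      (∏ j, ‖riemannZeta (pt σ t + I * a j)‖ ^ 2) * ‖Rc S r (pt σ t)‖ ^ 2 := by
    intro σ t
    unfold zp
    rw [norm_mul, norm_prod, mul_pow, ← Finset.prod_pow]
  have hI₀' : I₀ = ∫ t in Icc x y, (∏ j, ‖riemannZeta (pt (1 / 2 + u) t + I * a j)‖ ^ 2) *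
      ‖RP S (ru r u) t‖ ^ 2 := by
    rw [hI₀]
    refine integral_congr_ae (Eventually.of_forall fun t => ?_)
    simp only
    rw [hzp, Rc_pt]
  have hρc : Continuous fun t : ℝ => ‖RP S (ru r u) t‖ ^ 2 := by
    have h2 : Continuous (fun t => RP S (ru r u) t) := TP_cont _ _ _ _
    exact h2.norm.pow 2
  have hcardm : Fintype.card (Fin m) = m := Fintype.card_fin m
  have hmr0 : ∀ (P : Finset ℕ) (p : ℕ → ℂ), 0 ≤ mr H₁ P p := fun P p => by
    have := w1_nonneg P p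
    unfold mr
    positivity
  have hε1 : (m : ℝ) * (4 * (C * Real.exp (-(α / 2 * B)))) ≤ 1 / 8 := by
    refine le_trans ?_ hB
    gcongr
    linarith
  have hlow1 : ((4 * A) ^ m)⁻¹ * (1 / 4 * mr H₁ Q (ru d u)) ≤ I₀ := by
    rw [hI₀']
    have h1 := good_int (ι := Fin m) (A := A) (x := x) (y := y) hA0
      (z := fun j t => riemannZeta (pt (1 / 2 + u) t + I * a j))
      (M := fun j t => Mp V N (pt (1 / 2 + u) t + I * a j))
      (D := fun j t => Dp V N (pt (1 / 2 + u) t + I * a j))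
      (ρ := fun t => ‖RP S (ru r u) t‖ ^ 2) (o := om τ H₁) (w := rh τ H₁ Q (ru d u))
      (fun j => (hzc j).mono (Icc_subset_Icc (by linarith) (by linarith))) hMc hDc hρc
      (rh_cont _ _ _ _) (fun t => sq_nonneg _) (fun t => (om_pos _ _ _).le)
      (fun t => om_le_one _ _ _) (fun t => by
        unfold rh
        rw [← Rc_pt, ← Rc_pt, ← hd, norm_mul, norm_prod, mul_pow, ← Finset.prod_pow])
      (m0 := mr H₁ Q (ru d u)) (ε₁ := C * Real.exp (-(α / 2 * B))) (Y := Y)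
      (by
        rw [hx, hy]
        exact (hmass T hTT1 Q hQ8 (ru d u) τ H₁ hH₁7).2.2)
      (hzm Q (ru d u) hQr)
      (fun j => by
        have h2 := dm_bound (T := T) (L := L) (B := B) (u := u) (α := α) (θ := δr / 2) (τ := τ)
          (H := H₁) (am := am) (V := V) hT1' hL hLp (by linarith) hu (by linarith) (by linarith)
          hH₁0 ham.le (fun P hP p => ⟨(hmass T hTT1 P hP p τ H₁ hH₁7).1,
            (hmass T hTT1 P hP p τ H₁ hH₁7).2.1⟩) hQ d (a j) (by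
            have h3 := hms j
            rw [BootN.grow_zero, mul_one] at h3
            rw [← hN]
            exact h3)
        rw [← hN, ← hY] at h2
        exact (setIntegral_le_integral h2.2.1 (Eventually.of_forall h2.1)).trans h2.2.2)
      (hmr0 _ _) (by
        rw [hcardm]
        have h2 : (m : ℝ) * (Y / A) ≤ 1 / 8 := by
          rw [hA, ← mul_div_assoc, div_le_iff₀ (by positivity)]
          nlinarith
        rw [mul_add]
        linarith)
    rw [hcardm] at h1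
    exact h1
  -- the second lower bound
  obtain ⟨A₂, hA₂⟩ : ∃ A₂ : ℝ, A₂ = 16 * ((m : ℝ) + 1) * T ^ (2 * α) := ⟨_, rfl⟩
  have hA₂0 : 0 < A₂ := by rw [hA₂]; positivity
  have hlow2 : ((4 * A₂) ^ m)⁻¹ * (1 / 4 * mr H₁ S (ru r u)) ≤ I₀ := by
    rw [hI₀']
    have h1 := good_int (ι := Fin m) (A := A₂) (x := x) (y := y) hA₂0
      (z := fun j t => riemannZeta (pt (1 / 2 + u) t + I * a j))
      (M := fun j t => Mp V N (pt (1 / 2 + u) t + I * a j))
      (D := fun _ _ => 1)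
      (ρ := fun t => ‖RP S (ru r u) t‖ ^ 2) (o := om τ H₁) (w := rh τ H₁ S (ru r u))
      (fun j => (hzc j).mono (Icc_subset_Icc (by linarith) (by linarith))) hMc
      (fun _ => continuous_const) hρc
      (rh_cont _ _ _ _) (fun t => sq_nonneg _) (fun t => (om_pos _ _ _).le)
      (fun t => om_le_one _ _ _) (fun t => by
        unfold rh
        simp)
      (m0 := mr H₁ S (ru r u)) (ε₁ := C * Real.exp (-(α / 2 * B))) (Y := 2 * T ^ (2 * α))
      (by
        rw [hx, hy]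
        exact (hmass T hTT1 S hS8 (ru r u) τ H₁ hH₁7).2.2)
      (hzm S (ru r u) hSr)
      (fun j => by
        have hMN : ∀ t : ℝ, ‖(1 : ℂ) * Mp V N (pt (1 / 2 + u) t + I * a j)‖ ^ 2 ≤ T ^ (2 * α) := by
          intro t
          rw [one_mul]
          have h2 := WD.Mp_le (fun x => ⟨hcf.nn x, hcf.le x⟩) N
            (s := pt (1 / 2 + u) t + I * a j) (by
              have : (pt (1 / 2 + u) t + I * a j).re = 1 / 2 + u := by simp
              rw [this]
              linarith)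
          have h3 : (N : ℝ) ≤ T ^ α := by
            rw [hN]
            exact Nat.floor_le (by positivity)
          calc ‖Mp V N (pt (1 / 2 + u) t + I * a j)‖ ^ 2 ≤ (T ^ α) ^ 2 :=
                pow_le_pow_left₀ (norm_nonneg _) (h2.trans h3) 2
            _ = T ^ (2 * α) := by
                rw [← Real.rpow_natCast, ← Real.rpow_mul hTp.le]
                congr 1
                push_cast
                ring
        have h4 := (hmass T hTT1 S hS8 (ru r u) τ H₁ hH₁7).1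
        have hint := rh_intg (τ := τ) hH₁0 S (ru r u)
        have hi2 : IntegrableOn (fun t => rh τ H₁ S (ru r u) t *
            ‖(1 : ℂ) * Mp V N (pt (1 / 2 + u) t + I * a j)‖ ^ 2) (Icc x y) :=
          ((rh_cont τ H₁ S (ru r u)).mul
            ((continuous_const.mul (hMc j)).norm.pow 2)).continuousOn.integrableOn_Icc
        calc ∫ t in Icc x y, rh τ H₁ S (ru r u) t *
              ‖(1 : ℂ) * Mp V N (pt (1 / 2 + u) t + I * a j)‖ ^ 2 ≤
            ∫ t in Icc x y, rh τ H₁ S (ru r u) t * T ^ (2 * α) := by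
              refine setIntegral_mono_on hi2 (hint.integrableOn.mul_const _) measurableSet_Icc
                fun t _ => ?_
              exact mul_le_mul_of_nonneg_left (hMN t) (rh_nonneg _ _ _ _ t)
          _ ≤ ∫ t : ℝ, rh τ H₁ S (ru r u) t * T ^ (2 * α) :=
              setIntegral_le_integral (hint.mul_const _) (Eventually.of_forall fun t =>
                mul_nonneg (rh_nonneg _ _ _ _ t) (by positivity))
          _ = (∫ t : ℝ, rh τ H₁ S (ru r u) t) * T ^ (2 * α) := integral_mul_const _ _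
          _ ≤ (2 * mr H₁ S (ru r u)) * T ^ (2 * α) := by gcongr
          _ = _ := by ring)
      (hmr0 _ _) (by
        rw [hcardm]
        have h2 : (m : ℝ) * (2 * T ^ (2 * α) / A₂) ≤ 1 / 8 := by
          rw [hA₂, ← mul_div_assoc, div_le_iff₀ (by positivity)]
          have : 0 < T ^ (2 * α) := by positivity
          nlinarith
        rw [mul_add]
        linarith)
    rw [hcardm] at h1
    exact h1
  -- the transfer
  obtain ⟨J, hJ⟩ : ∃ J : ℝ, J = ∫ t in Icc (x - H₁) (y + H₁), ‖zp a S r (pt (1 / 2) t)‖ ^ 2 := ⟨_, rfl⟩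
  have hTH₁ : T ^ (3 / 2 : ℝ) ≤ H₁ ^ 2 := by
    calc T ^ (3 / 2 : ℝ) ≤ T ^ (7 / 8 * ((2 : ℕ) : ℝ)) :=
          Real.rpow_le_rpow_of_exponent_le hT1' (by norm_num)
      _ = (T ^ (7 / 8 : ℝ)) ^ 2 := by rw [Real.rpow_mul hTp.le, Real.rpow_natCast]
      _ ≤ H₁ ^ 2 := pow_le_pow_left₀ (by positivity) hH₁7 2
  have hTH₁' : T ≤ H₁ ^ 2 := by
    refine le_trans ?_ hTH₁
    calc T = T ^ (1 : ℝ) := (Real.rpow_one T).symm
      _ ≤ _ := Real.rpow_le_rpow_of_exponent_le hT1' (by norm_num)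
  have htr1 := htr T hT100 a ha S _ hS r x y H₁ u (by linarith) (by linarith) hxy hH₁1 hTH₁' hu0 hu1
  rw [← hI₀, ← hJ] at htr1
  have hw0 := w1_nonneg S r
  have htail : (H₁ ^ 4)⁻¹ * n1 S r ^ 2 ≤ (T ^ 2)⁻¹ * w1 S r := by
    have h1 := n1_le hT1' (by positivity) (by linarith) hS r
    have h2 : T ^ 3 ≤ H₁ ^ 4 := by
      calc T ^ 3 = (T ^ (3 / 2 : ℝ)) ^ 2 := by
            rw [← Real.rpow_natCast, ← Real.rpow_natCast, ← Real.rpow_mul hTp.le]
            norm_num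
        _ ≤ (H₁ ^ 2) ^ 2 := pow_le_pow_left₀ (by positivity) hTH₁ 2
        _ = H₁ ^ 4 := by ring
    calc (H₁ ^ 4)⁻¹ * n1 S r ^ 2 ≤ (T ^ 3)⁻¹ * (T * w1 S r) := by gcongr
      _ = _ := by field_simp
  have hsmall : Ct * ((T ^ 2)⁻¹ * w1 S r) ≤ I₀ / 2 := by
    have h1 : mr H₁ S r ≤ Real.exp (2 * B) * mr H₁ S (ru r u) :=
      mr_ru hTp hL hLp (by linarith) hu (by linarith) hS r hH₁0.le
    have h2 : w1 S r ≤ mr H₁ S r := by
      unfold mr
      have h3 : 1 ≤ Real.sqrt (2 * Real.pi) := by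
        rw [Real.one_le_sqrt]
        have := Real.pi_gt_three
        linarith
      calc w1 S r = 1 * 1 * w1 S r := by ring
        _ ≤ Real.sqrt (2 * Real.pi) * H₁ * w1 S r := by gcongr
    have h3 : (4 * A₂) ^ m ≤ (64 * ((m : ℝ) + 1)) ^ m * T := by
      have e : 4 * A₂ = 64 * ((m : ℝ) + 1) * T ^ (2 * α) := by rw [hA₂]; ring
      rw [e, mul_pow]
      refine mul_le_mul_of_nonneg_left ?_ (by positivity)
      calc (T ^ (2 * α)) ^ m = T ^ (2 * α * m) := by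
            rw [← Real.rpow_natCast, ← Real.rpow_mul hTp.le]
        _ ≤ T ^ (1 : ℝ) := by
            apply Real.rpow_le_rpow_of_exponent_le hT1'
            have : (m : ℝ) * α ≤ (m + 1) * α := by gcongr; linarith
            linarith
        _ = T := Real.rpow_one T
    have h4 : mr H₁ S (ru r u) ≤ 4 * (4 * A₂) ^ m * I₀ := by
      have h5 : 0 < (4 * A₂) ^ m := by positivity
      rw [inv_mul_le_iff₀ h5] at hlow2
      linarith
    have hI0 : 0 ≤ I₀ := by rw [hI₀]; exact integral_nonneg fun t => sq_nonneg _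
    have h5 : w1 S r ≤ K2 * T * I₀ := by
      calc w1 S r ≤ Real.exp (2 * B) * mr H₁ S (ru r u) := h2.trans h1
        _ ≤ Real.exp (2 * B) * (4 * (4 * A₂) ^ m * I₀) := by gcongr
        _ ≤ Real.exp (2 * B) * (4 * ((64 * ((m : ℝ) + 1)) ^ m * T) * I₀) := by gcongr
        _ = K2 * T * I₀ := by rw [hK2]; ring
    calc Ct * ((T ^ 2)⁻¹ * w1 S r) ≤ Ct * ((T ^ 2)⁻¹ * (K2 * T * I₀)) := by gcongr
      _ = (2 * Ct * K2) / T * (I₀ / 2) := by field_simp
      _ ≤ 1 * (I₀ / 2) := by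
          refine mul_le_mul_of_nonneg_right ?_ (by linarith)
          rw [div_le_one hTp]
          exact hTK
      _ = I₀ / 2 := one_mul _
  have hIJ : I₀ ≤ 2 * Ct * J := by
    have h1 : Ct * ((H₁ ^ 4)⁻¹ * n1 S r ^ 2) ≤ Ct * ((T ^ 2)⁻¹ * w1 S r) := by gcongr
    rw [mul_add] at htr1
    linarith
  -- the upper bound for the polynomial
  have hup : ∫ t in Icc U (U + H), (∏ j, ‖Dp V N (pt (1 / 2) t + I * a j)‖ ^ 2) * ‖RP S r t‖ ^ 2 ≤
      4 * mr H Q d := by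
    have h1 := (hmass T hTT1 Q hQ8 d τ H hH7).1
    have hint := rh_intg (τ := τ) hH0 Q d
    have heq : ∀ t : ℝ, (∏ j, ‖Dp V N (pt (1 / 2) t + I * a j)‖ ^ 2) * ‖RP S r t‖ ^ 2 =
        ‖RP Q d t‖ ^ 2 := by
      intro t
      rw [← Rc_half, ← Rc_half, ← hd, norm_mul, norm_prod, mul_pow, ← Finset.prod_pow]
    simp_rw [heq]
    have h2 : ∫ t in Icc U (U + H), ‖RP Q d t‖ ^ 2 ≤ ∫ t in Icc U (U + H), 2 * rh τ H Q d t := by
      have h3 : Continuous (fun t => RP Q d t) := TP_cont _ _ _ _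
      refine setIntegral_mono_on (h3.norm.pow 2).continuousOn.integrableOn_Icc
        (hint.const_mul 2).integrableOn measurableSet_Icc fun t ht => ?_
      have hom : 1 / 2 ≤ om τ H t := by
        unfold om
        have h5 : -(1 / 2 : ℝ) ≤ -(t - τ) ^ 2 / (2 * H ^ 2) := by
          rw [neg_div, neg_le_neg_iff, div_le_div_iff₀ (by positivity) (by norm_num)]
          have h6 : |t - τ| ≤ H := by
            rw [hτ, abs_le]
            constructor <;> linarith [ht.1, ht.2]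
          have h7 := sq_abs (t - τ)
          have h8 := abs_nonneg (t - τ)
          nlinarith
        have h6 := Real.exp_le_exp.2 h5
        have h7 := Real.add_one_le_exp (-(1 / 2 : ℝ))
        linarith
      unfold rh
      have h5 : 0 ≤ ‖RP Q d t‖ ^ 2 := sq_nonneg _
      nlinarith
    refine h2.trans ?_
    rw [integral_const_mul]
    have h4 : ∫ t in Icc U (U + H), rh τ H Q d t ≤ ∫ t : ℝ, rh τ H Q d t :=
      setIntegral_le_integral hint (Eventually.of_forall fun t => rh_nonneg _ _ _ _ t)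
    linarith
  -- the end
  have hfin : J ≤ ∫ t in Icc U (U + H), (∏ j, ‖riemannZeta (pt (1 / 2) t + I * a j)‖ ^ 2) *
      ‖RP S r t‖ ^ 2 := by
    have e : (∫ t in Icc U (U + H), (∏ j, ‖riemannZeta (pt (1 / 2) t + I * a j)‖ ^ 2) *
        ‖RP S r t‖ ^ 2) = ∫ t in Icc U (U + H), ‖zp a S r (pt (1 / 2) t)‖ ^ 2 := by
      refine integral_congr_ae (Eventually.of_forall fun t => ?_)
      simp only
      rw [hzp, Rc_half]
    rw [e, hJ]
    have hc : ContinuousOn (fun t : ℝ => ‖zp a S r (pt (1 / 2) t)‖ ^ 2) (Icc U (U + H)) :=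
      (zp_cont S r fun t ht j => pt_ne hT100 (ha j) (hU.trans ht.1)).norm.pow 2
    exact setIntegral_mono_set hc.integrableOn_Icc (Eventually.of_forall fun t => sq_nonneg _)
      (LE.le.eventuallyLE (Icc_subset_Icc hxU hyU))
  have hmrQ : mr H Q d ≤ 32 * (Real.exp (2 * B) * mr H₁ Q (ru d u)) := by
    have h1 : mr H₁ Q d ≤ Real.exp (2 * B) * mr H₁ Q (ru d u) :=
      mr_ru hTp hL hLp (by linarith) hu (by linarith) hQ d hH₁0.le
    have h2 : mr H Q d = 32 * mr H₁ Q d := by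
      unfold mr
      rw [hH₁]
      ring
    rw [h2]
    linarith
  have h4A : 0 < (4 * A) ^ m := by positivity
  have hE := Real.exp_pos (2 * B)
  have hlast : ((4 * A) ^ m)⁻¹ * (1 / 4) * (Real.exp (2 * B))⁻¹ / 32 / 4 / (2 * Ct) *
      (4 * mr H Q d) ≤ J := by
    have h1 : ((4 * A) ^ m)⁻¹ * (1 / 4) * (Real.exp (2 * B))⁻¹ / 32 / 4 / (2 * Ct) *
        (4 * mr H Q d) ≤ ((4 * A) ^ m)⁻¹ * (1 / 4) * (Real.exp (2 * B))⁻¹ / 32 / 4 / (2 * Ct) *
        (4 * (32 * (Real.exp (2 * B) * mr H₁ Q (ru d u)))) := by gcongr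
    have h2 : ((4 * A) ^ m)⁻¹ * (1 / 4) * (Real.exp (2 * B))⁻¹ / 32 / 4 / (2 * Ct) *
        (4 * (32 * (Real.exp (2 * B) * mr H₁ Q (ru d u)))) =
        ((4 * A) ^ m)⁻¹ * (1 / 4 * mr H₁ Q (ru d u)) / (2 * Ct) := by
      field_simp
    rw [h2] at h1
    refine h1.trans ?_
    rw [div_le_iff₀ (by positivity)]
    linarith
  refine le_trans ?_ hfin
  refine le_trans ?_ hlast
  exact mul_le_mul_of_nonneg_left hup (by positivity)

end Run7.h311.DM
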