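import Pool.Agent.Run7.h311.DM.Dir

/-! # From the critical line to a line to the right, in mean square over an interval -/

set_option autoImplicit false

open Complex Filter Topology Set MeasureTheory
open scoped BigOperators ComplexConjugate

namespace Run7.h311.DM

open H370 hiding pt
open Pool.Agent.N802 Pool.Agent.N802.U Pool.Agent.N802.WD Pool.Agent.N802.WD.Msd
open Pool.Agent.R399.TW (pt pt_re pt_im pt_cont)
open Pool.Agent.N786.D (kap kap_cont kap_nn kap_scale cB cB_int cB_nn csE cauchy_le)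

/-- the mean square of an entire function on a line to the right -/
theorem shift_core {g : ℂ → ℂ} (hg : Differentiable ℂ g) {a μ lam G : ℝ} {q B p : ℕ}
    (hB : q + 3 ≤ 2 * B - 1) (hp : p + 2 ≤ 2 * B) (hml : μ < lam)
    (hgr : ∀ z : ℂ, a ≤ z.re → ‖g z‖ ≤ G * (1 + |z.im|) ^ q * Real.exp (-(lam * z.re)))
    {ρ : ℝ} (hρ : 0 < ρ) (hρ1 : ρ ≤ 1) {J : Set ℝ} (hJ : MeasurableSet J) {w : ℝ → ℝ}
    (hwm : Measurable w) (hw0 : ∀ t, 0 ≤ w t) {X : ℝ} (hX : 0 ≤ X)
    (hv : ∀ v : ℝ, ∫⁻ t in J, ENNReal.ofReal (w t) * ENNReal.ofReal (‖g (pt a (t + v))‖ ^ 2) ≤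
      ENNReal.ofReal (X * (2 + |v|) ^ p)) :
    ∫⁻ t in J, ENNReal.ofReal (w t * ‖g (pt (a + ρ) t)‖ ^ 2) ≤
      ENNReal.ofReal (Real.exp (-(μ * ρ)) ^ 2 * (cB B 0 * (cB B p * X))) := by
  set κ := kap B ρ with hκ
  have hκc : Continuous κ := kap_cont B hρ
  have hκ0 : ∀ v, 0 ≤ κ v := kap_nn B hρ
  obtain ⟨k1, k2⟩ := kap_polyR (B := B) (p := 0) (by omega) hρ hρ1 le_rfl
  simp only [pow_zero, mul_one, one_mul, one_pow] at k1 k2
  obtain ⟨k3, k4⟩ := kap_polyR (B := B) (p := p) hp hρ hρ1 le_rfl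
  rw [one_pow, one_mul] at k4
  rw [← hκ] at k1 k2 k3 k4
  obtain ⟨C0, hC0⟩ : ∃ C0 : ℝ, C0 = cB B 0 := ⟨_, rfl⟩
  obtain ⟨C1, hC1⟩ : ∃ C1 : ℝ, C1 = cB B p := ⟨_, rfl⟩
  have hC00 : 0 ≤ C0 := by rw [hC0]; exact cB_nn B 0
  have hC10 : 0 ≤ C1 := by rw [hC1]; exact cB_nn B p
  have k2' : ∫ v, κ v ≤ C0 := by rw [hC0]; exact k2
  rw [← hC1] at k4
  rw [← hC0, ← hC1]
  have hgc : Continuous fun t : ℝ => ‖g (pt a t)‖ := (hg.continuous.comp (pt_cont _)).norm
  obtain ⟨s₀, hs₀⟩ : ∃ s₀ : ℝ, s₀ = Real.exp (-(μ * ρ)) := ⟨_, rfl⟩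
  have hs0 : 0 < s₀ := by rw [hs₀]; exact Real.exp_pos _
  rw [← hs₀]
  -- pointwise
  have hpt : ∀ t ∈ J, ENNReal.ofReal (w t * ‖g (pt (a + ρ) t)‖ ^ 2) ≤
      ENNReal.ofReal (s₀ ^ 2 * C0) *
        ∫⁻ v, ENNReal.ofReal (κ v) * (ENNReal.ofReal (w t) *
          ENNReal.ofReal (‖g (pt a (t + v))‖ ^ 2)) := by
    intro t _
    obtain ⟨i1, i2⟩ := cauchy_le hg (a := a) (μ := μ) (lam := lam) (G := G)
      (m := q) (B := B) hB hml hgr (s := pt (a + ρ) t) (by rw [pt_re]; linarith)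
    have e0 : (pt (a + ρ) t).re - a = ρ := by rw [pt_re]; ring
    rw [e0, pt_im] at i1 i2
    rw [← hκ, ← hs₀] at i2
    rw [← hκ] at i1
    have hcs := csE (f := fun v => ‖g (pt a (t + v))‖) (w := κ)
      (hgc.comp (by fun_prop : Continuous fun v : ℝ => t + v))
      (fun v => norm_nonneg _) hκ0 k1 hκc i1
    obtain ⟨Z, hZ⟩ : ∃ Z : ℝ, Z = ∫ v : ℝ, ‖g (pt a (t + v))‖ * κ v := ⟨_, rfl⟩
    rw [← hZ] at hcs i2
    have hwt := hw0 t
    have e1 : w t * ‖g (pt (a + ρ) t)‖ ^ 2 ≤ s₀ ^ 2 * (w t * Z ^ 2) := by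
      calc w t * ‖g (pt (a + ρ) t)‖ ^ 2 ≤ w t * (s₀ * Z) ^ 2 := by gcongr
        _ = _ := by ring
    refine (ENNReal.ofReal_le_ofReal e1).trans ?_
    rw [ENNReal.ofReal_mul (sq_nonneg s₀), ENNReal.ofReal_mul (sq_nonneg s₀), mul_assoc,
      ENNReal.ofReal_mul hwt]
    refine mul_le_mul' le_rfl ?_
    have hm1 : Measurable fun v : ℝ => ENNReal.ofReal (‖g (pt a (t + v))‖ ^ 2 * κ v) := by
      refine Measurable.ennreal_ofReal (Continuous.measurable ?_)
      exact ((hgc.comp (by fun_prop : Continuous fun v : ℝ => t + v)).pow 2).mul hκc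
    calc ENNReal.ofReal (w t) * ENNReal.ofReal (Z ^ 2) ≤
        ENNReal.ofReal (w t) * (ENNReal.ofReal (∫ v, κ v) *
          ∫⁻ v, ENNReal.ofReal (‖g (pt a (t + v))‖ ^ 2 * κ v)) := by gcongr
      _ ≤ ENNReal.ofReal (w t) * (ENNReal.ofReal C0 *
          ∫⁻ v, ENNReal.ofReal (‖g (pt a (t + v))‖ ^ 2 * κ v)) := by gcongr
      _ = ENNReal.ofReal C0 * (ENNReal.ofReal (w t) *
          ∫⁻ v, ENNReal.ofReal (‖g (pt a (t + v))‖ ^ 2 * κ v)) := by ring
      _ = _ := by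
          congr 1
          rw [← lintegral_const_mul _ hm1]
          refine lintegral_congr fun v => ?_
          rw [ENNReal.ofReal_mul (sq_nonneg _)]
          ring
  -- the exchange
  have hmeas : Measurable (Function.uncurry fun t v : ℝ =>
      ENNReal.ofReal (κ v) * (ENNReal.ofReal (w t) *
          ENNReal.ofReal (‖g (pt a (t + v))‖ ^ 2))) := by
    have m1 : Measurable fun q : ℝ × ℝ => ENNReal.ofReal (κ q.2) :=
      (hκc.measurable.comp measurable_snd).ennreal_ofReal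
    have m2 : Measurable fun q : ℝ × ℝ => ENNReal.ofReal (w q.1) :=
      (hwm.comp measurable_fst).ennreal_ofReal
    have m3 : Measurable fun q : ℝ × ℝ => ENNReal.ofReal (‖g (pt a (q.1 + q.2))‖ ^ 2) := by
      refine Measurable.ennreal_ofReal (Continuous.measurable ?_)
      have c1 : Continuous fun q : ℝ × ℝ => ‖g (pt a (q.1 + q.2))‖ := hgc.comp (by fun_prop)
      exact c1.pow 2
    exact m1.mul (m2.mul m3)
  have hswap : ∫⁻ t in J, ∫⁻ v, ENNReal.ofReal (κ v) * (ENNReal.ofReal (w t) *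
          ENNReal.ofReal (‖g (pt a (t + v))‖ ^ 2)) ≤ ENNReal.ofReal (C1 * X) := by
    rw [lintegral_lintegral_swap hmeas.aemeasurable]
    have e2 : ∀ v : ℝ, ∫⁻ t in J, ENNReal.ofReal (κ v) * (ENNReal.ofReal (w t) *
          ENNReal.ofReal (‖g (pt a (t + v))‖ ^ 2)) ≤
        ENNReal.ofReal (X * (κ v * (2 + |v|) ^ p)) := by
      intro v
      have hm2 : Measurable fun t : ℝ => ENNReal.ofReal (w t) *
          ENNReal.ofReal (‖g (pt a (t + v))‖ ^ 2) := by
        refine hwm.ennreal_ofReal.mul (Measurable.ennreal_ofReal (Continuous.measurable ?_))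
        exact (hgc.comp (by fun_prop : Continuous fun v' : ℝ => v' + v)).pow 2
      rw [lintegral_const_mul _ hm2]
      calc ENNReal.ofReal (κ v) * ∫⁻ t in J, ENNReal.ofReal (w t) *
          ENNReal.ofReal (‖g (pt a (t + v))‖ ^ 2) ≤
          ENNReal.ofReal (κ v) * ENNReal.ofReal (X * (2 + |v|) ^ p) := by
            gcongr
            exact hv v
        _ = _ := by
            rw [← ENNReal.ofReal_mul (hκ0 v)]
            congr 1
            ring
    refine (lintegral_mono e2).trans ?_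
    have hn : ∀ v : ℝ, 0 ≤ X * (κ v * (2 + |v|) ^ p) := fun v => by
      have := hκ0 v
      positivity
    rw [← ofReal_integral_eq_lintegral_ofReal (k3.const_mul _) (Eventually.of_forall hn),
      integral_const_mul]
    refine ENNReal.ofReal_le_ofReal ?_
    calc X * ∫ v, κ v * (2 + |v|) ^ p ≤ X * C1 := mul_le_mul_of_nonneg_left k4 hX
      _ = C1 * X := mul_comm _ _
  refine (setLIntegral_mono' hJ hpt).trans ?_
  have m3 : Measurable fun t : ℝ => ∫⁻ v, ENNReal.ofReal (κ v) * (ENNReal.ofReal (w t) *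
        ENNReal.ofReal (‖g (pt a (t + v))‖ ^ 2)) := hmeas.lintegral_prod_right'
  rw [lintegral_const_mul _ m3]
  calc ENNReal.ofReal (s₀ ^ 2 * C0) * _ ≤
      ENNReal.ofReal (s₀ ^ 2 * C0) * ENNReal.ofReal (C1 * X) := by
        gcongr
    _ = _ := by
        rw [← ENNReal.ofReal_mul (by positivity)]
        congr 1
        ring

/-! ### the product of shifted zeta functions and a Dirichlet polynomial -/

lemma Rc_le {S : Finset ℕ} {N : ℝ} (hS : Len S N) (r : ℕ → ℂ) {z : ℂ} (hz : 1 / 2 ≤ z.re) :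
    ‖Rc S r z‖ ≤ n1 S r := by
  unfold Rc n1
  refine (norm_sum_le _ _).trans (Finset.sum_le_sum fun n hn => ?_)
  rw [norm_mul, Complex.norm_exp]
  have hn1 : (1 : ℝ) ≤ n := by exact_mod_cast (hS n hn).1
  have hl0 : 0 ≤ Real.log n := Real.log_nonneg hn1
  have e : (-((z - 1 / 2) * ((Real.log n : ℝ) : ℂ))).re = -((z.re - 1 / 2) * Real.log n) := by
    rw [Complex.neg_re, Complex.re_mul_ofReal]
    simp
  rw [e]
  have h1 : Real.exp (-((z.re - 1 / 2) * Real.log n)) ≤ 1 := Real.exp_le_one_iff.2 (by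
    have := mul_nonneg (by linarith : 0 ≤ z.re - 1 / 2) hl0
    linarith)
  exact mul_le_of_le_one_right (norm_nonneg _) h1

/-- the entire function -/
noncomputable def gp {ι : Type} [Fintype ι] (a : ι → ℝ) (S : Finset ℕ) (r : ℕ → ℂ) (z : ℂ) : ℂ :=
  (∏ j, riemannZeta₁ (z + I * a j)) * Rc S r z

lemma gp_diff {ι : Type} [Fintype ι] (a : ι → ℝ) (S : Finset ℕ) (r : ℕ → ℂ) :
    Differentiable ℂ (gp a S r) := by
  unfold gp
  refine Differentiable.mul (Differentiable.fun_finset_prod fun j _ => ?_) (Rc_diff S r)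
  exact differentiable_riemannZeta₁.comp (differentiable_id.add_const _)

lemma z1_eq {z : ℂ} (hz : z ≠ 1) : riemannZeta₁ z = (z - 1) * riemannZeta z := by
  have h1 : z - 1 ≠ 0 := sub_ne_zero.2 hz
  rw [riemannZeta_eq_inv_sub_mul hz, ← mul_assoc, mul_inv_cancel₀ h1, one_mul]

/-- the pointwise bound -/
lemma gp_le {ι : Type} [Fintype ι] {a : ι → ℝ} {S : Finset ℕ} {N : ℝ} (hS : Len S N) (r : ℕ → ℂ)
    {z : ℂ} (hz : 1 / 2 ≤ z.re) {Y : ℝ} (hY : ∀ j, ‖z + I * a j‖ + 1 ≤ Y) :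
    ‖gp a S r z‖ ≤ (11 * Y ^ 2) ^ Fintype.card ι * n1 S r := by
  unfold gp
  rw [norm_mul, norm_prod]
  refine mul_le_mul ?_ (Rc_le hS r hz) (norm_nonneg _) (by positivity)
  calc ∏ j, ‖riemannZeta₁ (z + I * a j)‖ ≤ ∏ _j : ι, (11 * Y ^ 2) := by
        refine Finset.prod_le_prod (fun j _ => norm_nonneg _) fun j _ => ?_
        have h1 : (z + I * a j).re = z.re := by simp
        refine (SG.z1_growth (by rw [h1]; linarith)).trans ?_
        have h2 := norm_nonneg (z + I * a j)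
        have h3 := hY j
        gcongr
    _ = (11 * Y ^ 2) ^ Fintype.card ι := by rw [Finset.prod_const, Finset.card_univ]

lemma gp_growth {ι : Type} [Fintype ι] {a : ι → ℝ} {b : ℝ} (hb : ∀ j, |a j| ≤ b) {S : Finset ℕ}
    {N : ℝ} (hS : Len S N) (r : ℕ → ℂ) (hb0 : 0 ≤ b) (z : ℂ) (hz : 1 / 2 ≤ z.re) :
    ‖gp a S r z‖ ≤ ((11 * (1 + b) ^ 2) ^ Fintype.card ι * n1 S r) *
      (1 + |z.im|) ^ (2 * Fintype.card ι) *
        Real.exp (-(-(2 * (Fintype.card ι : ℝ)) * z.re)) := by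
  have him := abs_nonneg z.im
  have hY : ∀ j, ‖z + I * a j‖ + 1 ≤ (1 + b) * (1 + |z.im|) * Real.exp z.re := by
    intro j
    have h1 : ‖z + I * a j‖ ≤ z.re + |z.im| + b := by
      have h2 := Complex.norm_le_abs_re_add_abs_im (z + I * a j)
      have h3 : (z + I * a j).re = z.re := by simp
      have h4 : (z + I * a j).im = z.im + a j := by simp
      rw [h3, h4, abs_of_nonneg (by linarith)] at h2
      have h5 := abs_add_le z.im (a j)
      have h6 := hb j
      linarith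
    have h2 := Real.add_one_le_exp z.re
    have h3 : z.re + |z.im| + b + 1 ≤ (1 + b) * (1 + |z.im|) * (z.re + 1) := by
      have h4 : 0 ≤ b * |z.im| := by positivity
      have h5 : (1 + b) * (1 + |z.im|) * (z.re + 1) =
          z.re + |z.im| + b + 1 + (b * |z.im| + (b + |z.im| + b * |z.im|) * z.re) := by ring
      have h6 : 0 ≤ (b + |z.im| + b * |z.im|) * z.re := by
        have : 0 ≤ z.re := by linarith
        positivity
      rw [h5]
      linarith
    calc ‖z + I * a j‖ + 1 ≤ z.re + |z.im| + b + 1 := by linarith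
      _ ≤ (1 + b) * (1 + |z.im|) * (z.re + 1) := h3
      _ ≤ _ := by gcongr
  refine (gp_le hS r hz hY).trans (le_of_eq ?_)
  have e : Real.exp (-(-(2 * (Fintype.card ι : ℝ)) * z.re)) = Real.exp z.re ^ (2 * Fintype.card ι) := by
    rw [← Real.exp_nat_mul]
    congr 1
    push_cast
    ring
  rw [e, pow_mul, pow_mul]
  have e2 : 11 * ((1 + b) * (1 + |z.im|) * Real.exp z.re) ^ 2 =
      (11 * (1 + b) ^ 2) * (1 + |z.im|) ^ 2 * Real.exp z.re ^ 2 := by ring
  rw [e2, mul_pow, mul_pow]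
  ring

/-- the product of shifted zeta functions -/
noncomputable def zp {ι : Type} [Fintype ι] (a : ι → ℝ) (S : Finset ℕ) (r : ℕ → ℂ) (z : ℂ) : ℂ :=
  (∏ j, riemannZeta (z + I * a j)) * Rc S r z

lemma gp_eq {ι : Type} [Fintype ι] {a : ι → ℝ} (S : Finset ℕ) (r : ℕ → ℂ) {z : ℂ}
    (hz : ∀ j, z + I * a j ≠ 1) : gp a S r z = (∏ j, (z + I * a j - 1)) * zp a S r z := by
  unfold gp zp
  rw [← mul_assoc, ← Finset.prod_mul_distrib]
  congr 1
  exact Finset.prod_congr rfl fun j _ => z1_eq (hz j)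

lemma zp_cont {ι : Type} [Fintype ι] {a : ι → ℝ} (S : Finset ℕ) (r : ℕ → ℂ) {σ : ℝ} {x y : ℝ}
    (h : ∀ t ∈ Icc x y, ∀ j, pt σ t + I * a j ≠ 1) :
    ContinuousOn (fun t : ℝ => zp a S r (pt σ t)) (Icc x y) := by
  unfold zp
  refine ContinuousOn.mul (continuousOn_finsetProd _ fun j _ => ?_)
    ((Rc_diff S r).continuous.comp (pt_cont _)).continuousOn
  intro t ht
  refine ContinuousAt.continuousWithinAt ?_
  exact ContinuousAt.comp (f := fun t : ℝ => pt σ t + I * a j) (g := riemannZeta)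
    (differentiableAt_riemannZeta (h t ht j)).continuousAt
    ((pt_cont σ).add continuous_const).continuousAt

end Run7.h311.DM
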