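import Pool.Agent.Run7.h311.DM.Shift

/-! # From the line to the right to the critical line -/

set_option autoImplicit false

open Complex Filter Topology Set MeasureTheory
open scoped BigOperators ComplexConjugate

namespace Run7.h311.DM

open Pool.Agent.N802 Pool.Agent.N802.U Pool.Agent.N802.WD Pool.Agent.N802.WD.Msd
open Pool.Agent.R399.TW (pt pt_re pt_im pt_cont)
open Pool.Agent.N786.D (cB cB_nn lint_shift)

lemma pt_ne {T a σ t : ℝ} (hT : 100 ≤ T) (ha : |a| ≤ T / 8) (ht : T ≤ t) :
    pt σ t + I * a ≠ 1 := by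
  intro h
  have h1 := congrArg Complex.im h
  simp only [Complex.add_im, pt_im, Complex.mul_im, Complex.I_re, Complex.I_im,
    Complex.ofReal_re, Complex.ofReal_im, Complex.one_im, mul_zero, one_mul, zero_add] at h1
  have h2 := (abs_le.1 ha).1
  linarith

lemma pt_low {T a σ t : ℝ} (ha : |a| ≤ T / 8) (ht : T ≤ t) :
    T / 2 ≤ ‖pt σ t + I * a - 1‖ := by
  have h1 := Complex.abs_im_le_norm (pt σ t + I * a - 1)
  have h2 : (pt σ t + I * a - 1).im = t + a := by simp
  rw [h2] at h1
  have h3 := (abs_le.1 ha).1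
  have h4 := le_abs_self (t + a)
  have h5 := abs_nonneg a
  linarith

theorem transfer (m : ℕ) : ∃ C : ℝ, 0 < C ∧ ∀ T : ℝ, 100 ≤ T → ∀ a : Fin m → ℝ,
    (∀ j, |a j| ≤ T / 8) → ∀ (S : Finset ℕ) (N : ℝ), Len S N → ∀ (r : ℕ → ℂ) (x y h ρ : ℝ),
    T ≤ x - h → y + h ≤ 2 * T → x ≤ y → 1 ≤ h → T ≤ h ^ 2 → 0 < ρ → ρ ≤ 1 →
    ∫ t in Icc x y, ‖zp a S r (pt (1 / 2 + ρ) t)‖ ^ 2 ≤
      C * ((∫ t in Icc (x - h) (y + h), ‖zp a S r (pt (1 / 2) t)‖ ^ 2) +
        (h ^ 4)⁻¹ * n1 S r ^ 2) := by
  obtain ⟨B, hBd⟩ : ∃ B : ℕ, B = 4 * m + 4 := ⟨_, rfl⟩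
  obtain ⟨p, hpd⟩ : ∃ p : ℕ, p = 8 * m + 6 := ⟨_, rfl⟩
  obtain ⟨C₀, hC₀⟩ : ∃ C₀ : ℝ, C₀ = Real.exp (2 * m + 1) ^ 2 * (cB B 0 * cB B p) := ⟨_, rfl⟩
  have hC₀0 : 0 ≤ C₀ := by
    rw [hC₀]
    have := cB_nn B 0
    have := cB_nn B p
    positivity
  refine ⟨C₀ * (36 ^ m + 176 ^ (2 * m)) + 1, by positivity, ?_⟩
  intro T hT a ha S N hS r x y h ρ hx hy hxy hh hTh hρ hρ1
  have hT0 : 0 < T := by linarith
  have hh0 : 0 < h := by linarith
  obtain ⟨J, hJ⟩ : ∃ J : ℝ, J = ∫ t in Icc (x - h) (y + h), ‖zp a S r (pt (1 / 2) t)‖ ^ 2 := ⟨_, rfl⟩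
  rw [← hJ]
  have hJ0 : 0 ≤ J := by rw [hJ]; exact integral_nonneg fun t => sq_nonneg _
  have hn0 := n1_nonneg S r
  obtain ⟨w, hw⟩ : ∃ w : ℝ → ℝ, w = fun t => (∏ j, ‖pt (1 / 2 + ρ) t + I * a j - 1‖ ^ 2)⁻¹ := ⟨_, rfl⟩
  have hw0 : ∀ t, 0 ≤ w t := fun t => by
    rw [hw]
    exact inv_nonneg.2 (Finset.prod_nonneg fun j _ => sq_nonneg _)
  have hwm : Measurable w := by
    rw [hw]
    refine Measurable.inv (Continuous.measurable ?_)
    refine continuous_finsetProd _ fun j _ => ?_
    exact ((((pt_cont _).add continuous_const).sub continuous_const).norm.pow 2)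
  -- the weight at points of the interval
  have hcard : Fintype.card (Fin m) = m := Fintype.card_fin m
  have hwle : ∀ t ∈ Icc x y, w t ≤ 1 := by
    intro t ht
    have htT : T ≤ t := by linarith [ht.1]
    rw [hw]
    refine inv_le_one_of_one_le₀ ?_
    have h0 : ∏ _j : Fin m, (1 : ℝ) ≤ ∏ j, ‖pt (1 / 2 + ρ) t + I * a j - 1‖ ^ 2 := by
      refine Finset.prod_le_prod (fun j _ => zero_le_one) fun j _ => ?_
      have h1 := pt_low (σ := 1 / 2 + ρ) (ha j) htT
      nlinarith
    rwa [Finset.prod_const_one] at h0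
  obtain ⟨X, hX⟩ : ∃ X : ℝ, X = 36 ^ m * J + 176 ^ (2 * m) * ((h ^ 4)⁻¹ * n1 S r ^ 2) := ⟨_, rfl⟩
  have hX0 : 0 ≤ X := by rw [hX]; positivity
  have hcore := shift_core (g := gp a S r) (gp_diff a S r) (a := 1 / 2)
    (μ := -(2 * (m : ℝ) + 1)) (lam := -(2 * (m : ℝ)))
    (G := (11 * (1 + T / 8) ^ 2) ^ m * n1 S r) (q := 2 * m) (B := B) (p := p)
    (by omega) (by omega) (by linarith)
    (fun z hz => by
      have h1 := gp_growth ha hS r (by positivity) z hz
      rw [hcard] at h1
      exact h1) hρ hρ1 (J := Icc x y) measurableSet_Icc hwm hw0 hX0 (by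
      intro v
      by_cases hv : |v| ≤ h
      · -- the main range
        have hv' := abs_le.1 hv
        have hpt : ∀ t ∈ Icc x y, ENNReal.ofReal (w t) *
            ENNReal.ofReal (‖gp a S r (pt (1 / 2) (t + v))‖ ^ 2) ≤
            ENNReal.ofReal (36 ^ m) *
              ENNReal.ofReal (‖zp a S r (pt (1 / 2) (t + v))‖ ^ 2) := by
          intro t ht
          have htT : T ≤ t := by linarith [ht.1]
          have htv : T ≤ t + v := by linarith [ht.1]
          have htv2 : t + v ≤ 2 * T := by linarith [ht.2]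
          rw [← ENNReal.ofReal_mul (hw0 t), ← ENNReal.ofReal_mul (by positivity)]
          refine ENNReal.ofReal_le_ofReal ?_
          rw [gp_eq S r (fun j => pt_ne hT (ha j) htv), norm_mul, norm_prod, mul_pow,
            ← Finset.prod_pow, ← mul_assoc]
          refine mul_le_mul_of_nonneg_right ?_ (sq_nonneg _)
          rw [hw]
          simp only
          have hP : 0 < ∏ j, ‖pt (1 / 2 + ρ) t + I * a j - 1‖ ^ 2 :=
            Finset.prod_pos fun j _ => by
              have := pt_low (σ := 1 / 2 + ρ) (ha j) htT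
              have : 0 < ‖pt (1 / 2 + ρ) t + I * a j - 1‖ := by linarith
              positivity
          rw [inv_mul_le_iff₀ hP]
          have e36 : (36 : ℝ) ^ m = ∏ _j : Fin m, (36 : ℝ) := by
            rw [Finset.prod_const, Finset.card_univ, hcard]
          rw [e36, ← Finset.prod_mul_distrib]
          refine Finset.prod_le_prod (fun j _ => sq_nonneg _) fun j _ => ?_
          have h1 := pt_low (σ := 1 / 2 + ρ) (ha j) htT
          have h2 : ‖pt (1 / 2) (t + v) + I * a j - 1‖ ≤ 3 * T := by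
            have h3 := Complex.norm_le_abs_re_add_abs_im (pt (1 / 2) (t + v) + I * a j - 1)
            have h4 : (pt (1 / 2) (t + v) + I * a j - 1).re = -(1 / 2) := by
              simp
              norm_num
            have h5 : (pt (1 / 2) (t + v) + I * a j - 1).im = t + v + a j := by simp
            rw [h4, h5, abs_neg] at h3
            have h6 := abs_add_le (t + v) (a j)
            have h7 : |t + v| = t + v := abs_of_nonneg (by linarith)
            have h8 : |(1 / 2 : ℝ)| = 1 / 2 := abs_of_pos (by norm_num)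
            have h9 := ha j
            linarith
          have h3 : ‖pt (1 / 2) (t + v) + I * a j - 1‖ ≤
              6 * ‖pt (1 / 2 + ρ) t + I * a j - 1‖ := by linarith
          calc ‖pt (1 / 2) (t + v) + I * a j - 1‖ ^ 2 ≤
              (6 * ‖pt (1 / 2 + ρ) t + I * a j - 1‖) ^ 2 :=
                pow_le_pow_left₀ (norm_nonneg _) h3 2
            _ = _ := by ring
        refine (setLIntegral_mono' measurableSet_Icc hpt).trans ?_
        have hzc : ContinuousOn (fun t : ℝ => ‖zp a S r (pt (1 / 2) t)‖ ^ 2)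
            (Icc (x - h) (y + h)) :=
          (zp_cont S r fun t ht j => pt_ne hT (ha j) (by linarith [ht.1])).norm.pow 2
        have hzc' : ContinuousOn (fun t : ℝ => ‖zp a S r (pt (1 / 2) t)‖ ^ 2)
            (Icc (x + v) (y + v)) :=
          hzc.mono (Icc_subset_Icc (by linarith [hv'.1]) (by linarith [hv'.2]))
        have e1 : ∫⁻ t in Icc x y, ENNReal.ofReal (36 ^ m) *
            ENNReal.ofReal (‖zp a S r (pt (1 / 2) (t + v))‖ ^ 2) =
            ENNReal.ofReal (36 ^ m) * ∫⁻ t in Icc x y,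
              ENNReal.ofReal (‖zp a S r (pt (1 / 2) (t + v))‖ ^ 2) :=
          lintegral_const_mul' _ _ ENNReal.ofReal_ne_top
        have e2 := lint_shift (fun t => ENNReal.ofReal (‖zp a S r (pt (1 / 2) t)‖ ^ 2)) x (y - x) v
        have e3 : x + (y - x) = y := by ring
        have e4 : x + v + (y - x) = y + v := by ring
        rw [e3, e4] at e2
        have e5 : ∫⁻ t in Icc x y, ENNReal.ofReal (‖zp a S r (pt (1 / 2) (t + v))‖ ^ 2) ≤
            ENNReal.ofReal J := by
          rw [e2, hJ, ofReal_integral_eq_lintegral_ofReal hzc.integrableOn_Icc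
            (Eventually.of_forall fun t => sq_nonneg _)]
          exact lintegral_mono_set (Icc_subset_Icc (by linarith [hv'.1]) (by linarith [hv'.2]))
        rw [e1]
        calc ENNReal.ofReal (36 ^ m) * ∫⁻ t in Icc x y,
              ENNReal.ofReal (‖zp a S r (pt (1 / 2) (t + v))‖ ^ 2) ≤
            ENNReal.ofReal (36 ^ m) * ENNReal.ofReal J := by gcongr
          _ = ENNReal.ofReal (36 ^ m * J) := by rw [← ENNReal.ofReal_mul (by positivity)]
          _ ≤ ENNReal.ofReal (X * (2 + |v|) ^ p) := by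
              refine ENNReal.ofReal_le_ofReal ?_
              have h1 : 1 ≤ (2 + |v|) ^ p := one_le_pow₀ (by linarith [abs_nonneg v])
              have h2 : 36 ^ m * J ≤ X := by
                rw [hX]
                have : 0 ≤ (176 : ℝ) ^ (2 * m) * ((h ^ 4)⁻¹ * n1 S r ^ 2) := by positivity
                linarith
              calc 36 ^ m * J ≤ X := h2
                _ = X * 1 := (mul_one _).symm
                _ ≤ _ := mul_le_mul_of_nonneg_left h1 hX0
      · -- the trivial range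
        push Not at hv
        have hv1 : 1 ≤ |v| := by linarith
        have hTv : T ≤ |v| ^ 2 := hTh.trans (pow_le_pow_left₀ hh0.le hv.le 2)
        obtain ⟨b, hb⟩ : ∃ b : ℝ, b = ((11 * (4 * |v| ^ 2) ^ 2) ^ m * n1 S r) ^ 2 := ⟨_, rfl⟩
        have hb0 : 0 ≤ b := by rw [hb]; positivity
        have hpt : ∀ t ∈ Icc x y, ENNReal.ofReal (w t) *
            ENNReal.ofReal (‖gp a S r (pt (1 / 2) (t + v))‖ ^ 2) ≤ ENNReal.ofReal b := by
          intro t ht
          have htT : T ≤ t := by linarith [ht.1]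
          have ht2 : t ≤ 2 * T := by linarith [ht.2]
          rw [← ENNReal.ofReal_mul (hw0 t)]
          refine ENNReal.ofReal_le_ofReal ?_
          have h1 := gp_le (a := a) hS r (z := pt (1 / 2) (t + v)) (by rw [pt_re])
            (Y := 4 * |v| ^ 2) (by
              intro j
              have h3 := Complex.norm_le_abs_re_add_abs_im (pt (1 / 2) (t + v) + I * a j)
              have h4 : (pt (1 / 2) (t + v) + I * a j).re = 1 / 2 := by simp
              have h5 : (pt (1 / 2) (t + v) + I * a j).im = t + v + a j := by simp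
              rw [h4, h5] at h3
              have h6 := abs_add_le (t + v) (a j)
              have h7 := abs_add_le t v
              have h8 : |(1 / 2 : ℝ)| = 1 / 2 := abs_of_pos (by norm_num)
              have h9 := ha j
              have h10 : |t| = t := abs_of_nonneg (by linarith)
              rw [h8] at h3
              rw [h10] at h7
              nlinarith)
          rw [hcard] at h1
          have h2 := hwle t ht
          calc w t * ‖gp a S r (pt (1 / 2) (t + v))‖ ^ 2 ≤
              1 * ((11 * (4 * |v| ^ 2) ^ 2) ^ m * n1 S r) ^ 2 := by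
                refine mul_le_mul h2 (pow_le_pow_left₀ (norm_nonneg _) h1 2) (sq_nonneg _)
                  zero_le_one
            _ = b := by rw [hb, one_mul]
        refine (setLIntegral_mono' measurableSet_Icc hpt).trans ?_
        rw [setLIntegral_const, Real.volume_Icc, ← ENNReal.ofReal_mul hb0]
        refine ENNReal.ofReal_le_ofReal ?_
        have h1 : y - x ≤ |v| ^ 2 := by linarith
        have h2 : b * (y - x) ≤ b * |v| ^ 2 := mul_le_mul_of_nonneg_left h1 hb0
        have h3 : b * |v| ^ 2 = 176 ^ (2 * m) * n1 S r ^ 2 * |v| ^ (8 * m + 2) := by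
          rw [hb]
          have e : 11 * (4 * |v| ^ 2) ^ 2 = 176 * |v| ^ 4 := by ring
          rw [e, mul_pow, mul_pow, mul_pow, ← pow_mul, ← pow_mul, ← pow_mul]
          have e2 : |v| ^ (8 * m + 2) = |v| ^ (4 * m * 2) * |v| ^ 2 := by
            rw [← pow_add]
            congr 1
            ring
          rw [e2, mul_comm 2 m]
          ring
        have h4 : 1 ≤ (h ^ 4)⁻¹ * |v| ^ 4 := by
          rw [le_inv_mul_iff₀ (by positivity), mul_one]
          exact pow_le_pow_left₀ hh0.le hv.le 4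
        have h5 : |v| ^ (8 * m + 2) ≤ (h ^ 4)⁻¹ * |v| ^ p := by
          have e : |v| ^ p = |v| ^ 4 * |v| ^ (8 * m + 2) := by
            rw [← pow_add, hpd]
            congr 1
            ring
          rw [e, ← mul_assoc]
          calc |v| ^ (8 * m + 2) = 1 * |v| ^ (8 * m + 2) := (one_mul _).symm
            _ ≤ _ := mul_le_mul_of_nonneg_right h4 (by positivity)
        have h6 : |v| ^ p ≤ (2 + |v|) ^ p := pow_le_pow_left₀ (abs_nonneg v) (by linarith) p
        calc b * (y - x) ≤ 176 ^ (2 * m) * n1 S r ^ 2 * |v| ^ (8 * m + 2) := by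
              rw [← h3]; exact h2
          _ ≤ 176 ^ (2 * m) * n1 S r ^ 2 * ((h ^ 4)⁻¹ * (2 + |v|) ^ p) := by
              refine mul_le_mul_of_nonneg_left (h5.trans ?_) (by positivity)
              gcongr
          _ = 176 ^ (2 * m) * ((h ^ 4)⁻¹ * n1 S r ^ 2) * (2 + |v|) ^ p := by ring
          _ ≤ X * (2 + |v|) ^ p := by
              refine mul_le_mul_of_nonneg_right ?_ (by positivity)
              rw [hX]
              have : 0 ≤ 36 ^ m * J := by positivity
              linarith)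
  -- back
  have hzcR : ContinuousOn (fun t : ℝ => ‖zp a S r (pt (1 / 2 + ρ) t)‖ ^ 2) (Icc x y) :=
    (zp_cont S r fun t ht j => pt_ne hT (ha j) (by linarith [ht.1])).norm.pow 2
  have hfin : ENNReal.ofReal (∫ t in Icc x y, ‖zp a S r (pt (1 / 2 + ρ) t)‖ ^ 2) ≤
      ENNReal.ofReal (Real.exp (-(-(2 * (m : ℝ) + 1) * ρ)) ^ 2 * (cB B 0 * (cB B p * X))) := by
    rw [ofReal_integral_eq_lintegral_ofReal hzcR.integrableOn_Icc
      (Eventually.of_forall fun t => sq_nonneg _)]
    refine le_trans (le_of_eq ?_) hcore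
    refine setLIntegral_congr_fun measurableSet_Icc fun t ht => ?_
    have htT : T ≤ t := by linarith [ht.1]
    have hP : 0 < ∏ j, ‖pt (1 / 2 + ρ) t + I * a j - 1‖ ^ 2 :=
      Finset.prod_pos fun j _ => by
        have := pt_low (σ := 1 / 2 + ρ) (ha j) htT
        have : 0 < ‖pt (1 / 2 + ρ) t + I * a j - 1‖ := by linarith
        positivity
    rw [gp_eq S r (fun j => pt_ne hT (ha j) htT), norm_mul, norm_prod, mul_pow,
      ← Finset.prod_pow, hw]
    simp only
    rw [← mul_assoc, inv_mul_cancel₀ hP.ne', one_mul]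
  have hb0 := cB_nn B 0
  have hb1 := cB_nn B p
  rw [ENNReal.ofReal_le_ofReal_iff (by positivity)] at hfin
  refine hfin.trans ?_
  have h1 : Real.exp (-(-(2 * (m : ℝ) + 1) * ρ)) ≤ Real.exp (2 * m + 1) := by
    apply Real.exp_le_exp.2
    have : (2 * (m : ℝ) + 1) * ρ ≤ (2 * (m : ℝ) + 1) * 1 :=
      mul_le_mul_of_nonneg_left hρ1 (by positivity)
    linarith
  have h2 : X ≤ (36 ^ m + 176 ^ (2 * m)) * (J + (h ^ 4)⁻¹ * n1 S r ^ 2) := by
    rw [hX]
    have h3 : 0 ≤ (36 : ℝ) ^ m * ((h ^ 4)⁻¹ * n1 S r ^ 2) := by positivity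
    have h4 : 0 ≤ (176 : ℝ) ^ (2 * m) * J := by positivity
    linarith
  have h3 : 0 ≤ J + (h ^ 4)⁻¹ * n1 S r ^ 2 := by positivity
  calc Real.exp (-(-(2 * (m : ℝ) + 1) * ρ)) ^ 2 * (cB B 0 * (cB B p * X)) ≤
      Real.exp (2 * m + 1) ^ 2 * (cB B 0 * (cB B p *
        ((36 ^ m + 176 ^ (2 * m)) * (J + (h ^ 4)⁻¹ * n1 S r ^ 2)))) := by gcongr
    _ = C₀ * (36 ^ m + 176 ^ (2 * m)) * (J + (h ^ 4)⁻¹ * n1 S r ^ 2) := by rw [hC₀]; ring
    _ ≤ _ := by
        refine mul_le_mul_of_nonneg_right ?_ h3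
        linarith

end Run7.h311.DM
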